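import Pool.Agent.Lib.MP_2184e2_an.Levi

/-!
A criterion for condition (L) for submanifolds of hypersurface type.
-/

set_option autoImplicit false

namespace Pool.Agent.Lib.MP_2184e2_an

open Set Filter Topology
open scoped ContDiff NNReal ComplexConjugate

variable {n : ℕ} {M : Set (Fin n → ℂ)} {z : Fin n → ℂ}

/-- `w ↦ ∑ conj (G_j) (DG u)_j` as a real functional (imaginary part with sign). -/
noncomputable def ell {m : ℕ} (G : (Fin n → ℂ) → Fin m → ℂ) (z : Fin n → ℂ) :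
    (Fin n → ℂ) →L[ℝ] ℝ :=
  ∑ j, ((-Complex.imCLM).comp ((ContinuousLinearMap.mul ℝ ℂ (conj (G z j))).comp
    ((ContinuousLinearMap.proj j : (Fin m → ℂ) →L[ℝ] ℂ).comp
      ((fderiv ℂ G z).restrictScalars ℝ))))

lemma ell_apply {m : ℕ} (G : (Fin n → ℂ) → Fin m → ℂ) (z u : Fin n → ℂ) :
    ell G z u = -(∑ j, conj (G z j) * fderiv ℂ G z u j).im := by
  unfold ell
  simp only [sum_apply, ContinuousLinearMap.comp_apply,
    neg_apply, Complex.imCLM_apply, ContinuousLinearMap.mul_apply',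
    ContinuousLinearMap.proj_apply, ContinuousLinearMap.coe_restrictScalars', Complex.im_sum,
    Finset.sum_neg_distrib]

lemma tangent_ker_near {F : Type*} [NormedAddCommGroup F] [NormedSpace ℝ F] [CompleteSpace F]
    {ρ : (Fin n → ℂ) → F} (hρ : AnalyticAt ℝ ρ z) (h0 : ∀ᶠ w in 𝓝 z, (w ∈ M → ρ w = 0)) :
    ∀ᶠ w in 𝓝[M] z, ∀ u ∈ tangent M w, fderiv ℝ ρ w u = 0 := by
  have h1 := hρ.eventually_analyticAt
  have h2 := h0.eventually_nhds
  have h3 : ∀ᶠ w in 𝓝[M] z, w ∈ M := self_mem_nhdsWithin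
  filter_upwards [nhdsWithin_le_nhds h1, nhdsWithin_le_nhds h2, h3] with w hw1 hw2 hw3 u hu
  refine fderiv_tangent hw3 hw1.differentiableAt ?_ hu
  filter_upwards [nhdsWithin_le_nhds hw2, self_mem_nhdsWithin] with y hy1 hy2
  exact hy1 hy2

/-- A criterion for condition (L) at a point. -/
lemma conditionL_at {m : ℕ} {G : (Fin n → ℂ) → Fin m → ℂ} (hz : z ∈ M) (hG : AnalyticAt ℂ G z)
    (hM : ∀ᶠ w in 𝓝[M] z, ∀ u ∈ ctangent M w, ∑ j, conj (G w j) * fderiv ℂ G w u j = 0)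
    (hker : ∀ u ∈ tangent M z, ell G z u = 0 → u ∈ ctangent M z)
    (hinj : ∀ v ∈ ctangent M z, fderiv ℂ G z v = 0 → v = 0)
    (hex : ∃ v ∈ ctangent M z, v ≠ 0)
    (hsec : ∀ v ∈ ctangent M z, ∃ X : (Fin n → ℂ) → Fin n → ℂ, ContDiffAt ℝ ∞ X z ∧
      (∀ᶠ w in 𝓝[M] z, X w ∈ ctangent M w) ∧ X z = v)
    {F : Type*} [NormedAddCommGroup F] [NormedSpace ℝ F] [CompleteSpace F]
    {ρ : (Fin n → ℂ) → F} (hρ : AnalyticAt ℝ ρ z) (h0 : ∀ᶠ w in 𝓝 z, (w ∈ M → ρ w = 0))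
    (hρker : ∀ u, fderiv ℝ ρ z u = 0 → u ∈ tangent M z) :
    (∀ v ∈ ctangent M z, ∃ ν, IsLevi M z v ν) ∧
    (0 : Normal M z) ∉ convexHull ℝ (leviSet M z) ∧
    (interior (Submodule.span ℝ≥0 (leviSet M z) : Set (Normal M z))).Nonempty := by
  -- brackets are tangent
  have hbr : ∀ X : (Fin n → ℂ) → Fin n → ℂ, ContDiffAt ℝ ∞ X z →
      (∀ᶠ w in 𝓝[M] z, X w ∈ ctangent M w) →
      VectorField.lieBracket ℝ X (fun w => Complex.I • X w) z ∈ tangent M z := by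
    intro X hX hXt
    have hXd : DifferentiableAt ℝ X z := hX.differentiableAt (by simp)
    apply hρker
    refine bracket_ker hz hρ.contDiffAt (tangent_ker_near hρ h0) hXd
      (hXd.const_smul Complex.I) ?_ ?_
    · filter_upwards [hXt] with w hw using hw.1
    · filter_upwards [hXt] with w hw using hw.2
  -- the functional on the quotient
  have hcz := hM.self_of_nhdsWithin hz
  let ℓ : tangent M z →ₗ[ℝ] ℝ := (ell G z).toLinearMap.comp (tangent M z).subtype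
  have hℓ : ctangentIn M z ≤ LinearMap.ker ℓ := by
    intro u hu
    have hu' : (u : Fin n → ℂ) ∈ ctangent M z := hu
    show ell G z (u : Fin n → ℂ) = 0
    rw [ell_apply, hcz _ hu']
    simp
  let ℓq : Normal M z →ₗ[ℝ] ℝ := (ctangentIn M z).liftQ ℓ hℓ
  have hℓq : ∀ u : tangent M z, ℓq (Submodule.Quotient.mk u) = ell G z (u : Fin n → ℂ) :=
    fun u => rfl
  have hinjq : ∀ ν, ℓq ν = 0 → ν = 0 := by
    intro ν
    obtain ⟨u, rfl⟩ := Submodule.Quotient.mk_surjective _ ν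
    intro h
    rw [hℓq] at h
    rw [Submodule.Quotient.mk_eq_zero]
    exact hker _ u.2 h
  have hcont : Continuous ℓq := by
    have h1 : Continuous ℓ := (ell G z).continuous.comp continuous_subtype_val
    exact (Submodule.isQuotientMap_mkQ (ctangentIn M z)).continuous_iff.2 h1
  -- values of the Levi form
  have hval : ∀ v ν, IsLevi M z v ν →
      ℓq ν = 2 * ∑ j, ‖fderiv ℂ G z v j‖ ^ 2 := by
    rintro v ν ⟨X, hX, hXt, rfl, h, rfl⟩
    rw [hℓq, ell_apply, levi_key hz hG hM (hX.differentiableAt (by simp)) hXt]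
    have e : (-2 * Complex.I * ∑ j, (‖fderiv ℂ G z (X z) j‖ ^ 2 : ℂ)) =
        ((-2 * ∑ j, ‖fderiv ℂ G z (X z) j‖ ^ 2 : ℝ) : ℂ) * Complex.I := by
      push_cast; ring
    rw [e, Complex.im_ofReal_mul, Complex.I_im]
    ring
  have hpos : ∀ v ∈ ctangent M z, v ≠ 0 → 0 < 2 * ∑ j, ‖fderiv ℂ G z v j‖ ^ 2 := by
    intro v hv hv0
    have h1 : fderiv ℂ G z v ≠ 0 := fun h => hv0 (hinj v hv h)
    obtain ⟨j, hj⟩ := Function.ne_iff.1 h1
    have h2 : 0 < ∑ j, ‖fderiv ℂ G z v j‖ ^ 2 := by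
      refine Finset.sum_pos' (fun i _ => by positivity) ⟨j, Finset.mem_univ _, ?_⟩
      have : 0 < ‖fderiv ℂ G z v j‖ := norm_pos_iff.2 hj
      positivity
    linarith
  have hK : leviSet M z ⊆ {ν | 0 < ℓq ν} := by
    rintro ν ⟨v, hv, hv1, hν⟩
    have hv0 : v ≠ 0 := by
      rintro rfl
      simp at hv1
    show 0 < ℓq ν
    rw [hval v ν hν]
    exact hpos v hv hv0
  have htot : ∀ v ∈ ctangent M z, ∃ ν, IsLevi M z v ν := by
    intro v hv
    obtain ⟨X, hX, hXt, hXz⟩ := hsec v hv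
    exact ⟨Submodule.Quotient.mk ⟨_, hbr X hX hXt⟩, X, hX, hXt, hXz, hbr X hX hXt, rfl⟩
  refine ⟨htot, ?_, ?_⟩
  · intro h
    have hconv : Convex ℝ {ν : Normal M z | 0 < ℓq ν} := by
      have := (convex_Ioi (0 : ℝ)).linear_preimage ℓq
      exact this
    have h2 := convexHull_min hK hconv h
    simp at h2
  · obtain ⟨v, hv, hv0⟩ := hex
    -- normalise
    have hs : 0 < ∑ i, ‖v i‖ ^ 2 := by
      obtain ⟨j, hj⟩ := Function.ne_iff.1 hv0
      refine Finset.sum_pos' (fun i _ => by positivity) ⟨j, Finset.mem_univ _, ?_⟩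
      have : 0 < ‖v j‖ := norm_pos_iff.2 hj
      positivity
    set r : ℝ := (Real.sqrt (∑ i, ‖v i‖ ^ 2))⁻¹ with hr
    have hr0 : 0 < r := by positivity
    set w : Fin n → ℂ := (r : ℂ) • v with hw
    have hwc : w ∈ ctangent M z := Submodule.smul_mem _ _ hv
    have hw0 : w ≠ 0 := smul_ne_zero (by exact_mod_cast hr0.ne') hv0
    have hw1 : ∑ i, ‖w i‖ ^ 2 = 1 := by
      have : ∀ i, ‖w i‖ ^ 2 = r ^ 2 * ‖v i‖ ^ 2 := by
        intro i
        rw [hw, Pi.smul_apply, smul_eq_mul, norm_mul, Complex.norm_real, mul_pow,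
          Real.norm_of_nonneg hr0.le]
      simp only [this]
      rw [← Finset.mul_sum, hr, inv_pow, Real.sq_sqrt hs.le, inv_mul_cancel₀ hs.ne']
    obtain ⟨ν, hν⟩ := htot w hwc
    have hνK : ν ∈ leviSet M z := ⟨w, hwc, hw1, hν⟩
    have hν0 : 0 < ℓq ν := hK hνK
    refine ⟨ν, mem_interior.2 ⟨{μ | 0 < ℓq μ}, ?_, isOpen_lt continuous_const hcont, hν0⟩⟩
    intro μ hμ
    have hμ' : 0 < ℓq μ := hμ
    have e : μ = (⟨ℓq μ / ℓq ν, by positivity⟩ : ℝ≥0) • ν := by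
      have h1 : μ - (ℓq μ / ℓq ν) • ν = 0 := by
        apply hinjq
        rw [map_sub, map_smul, smul_eq_mul, div_mul_cancel₀ _ hν0.ne', sub_self]
      exact sub_eq_zero.1 h1
    rw [e]
    exact Submodule.smul_mem _ _ (Submodule.subset_span hνK)

end Pool.Agent.Lib.MP_2184e2_an
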