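import Mathlib

/-!
Definitions for problem MP_2184e2_an: real-analytic CR submanifolds of `ℂⁿ`, the vector-valued
Levi form, condition (L) and CR mappings.
-/

set_option autoImplicit false

namespace Pool.Agent.Lib.MP_2184e2_an

open Set Filter Topology
open scoped ContDiff NNReal

variable {n : ℕ}

/-- `M ⊆ ℂⁿ` is a real-analytic (embedded) submanifold of real codimension `c`: near each of its
points it is the zero set of a real-analytic map to `ℝ^c` whose differential is onto. -/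
def IsAnalyticSubmanifold (c : ℕ) (M : Set (Fin n → ℂ)) : Prop :=
  ∀ z ∈ M, ∃ ρ : (Fin n → ℂ) → (Fin c → ℝ), AnalyticAt ℝ ρ z ∧
    Function.Surjective (fderiv ℝ ρ z) ∧ ∀ᶠ w in 𝓝 z, (w ∈ M ↔ ρ w = 0)

/-- The tangent space `T_z M`, a real subspace of `ℂⁿ`. -/
noncomputable def tangent (M : Set (Fin n → ℂ)) (z : Fin n → ℂ) : Submodule ℝ (Fin n → ℂ) :=
  Submodule.span ℝ (tangentConeAt ℝ M z)

/-- The complex tangent space `T^c_z M = T_z M ∩ i T_z M`, a complex subspace of `ℂⁿ`. -/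
noncomputable def ctangent (M : Set (Fin n → ℂ)) (z : Fin n → ℂ) : Submodule ℂ (Fin n → ℂ) where
  carrier := {v | v ∈ tangent M z ∧ Complex.I • v ∈ tangent M z}
  add_mem' := fun {a b} ha hb => ⟨add_mem ha.1 hb.1, by rw [smul_add]; exact add_mem ha.2 hb.2⟩
  zero_mem' := ⟨zero_mem _, by rw [smul_zero]; exact zero_mem _⟩
  smul_mem' := fun c v hv => by
    have h1 : c • v = c.re • v + c.im • (Complex.I • v) := by
      ext k
      simp only [Pi.smul_apply, smul_eq_mul, Pi.add_apply, Complex.real_smul]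
      conv_lhs => rw [← Complex.re_add_im c]
      ring
    have h2 : Complex.I • (c • v) = c.re • (Complex.I • v) - c.im • v := by
      ext k
      simp only [Pi.smul_apply, smul_eq_mul, Pi.sub_apply, Complex.real_smul]
      conv_lhs => rw [← Complex.re_add_im c]
      linear_combination (c.im * v k : ℂ) * Complex.I_sq
    refine ⟨?_, ?_⟩
    · rw [h1]
      exact add_mem (Submodule.smul_mem _ _ hv.1) (Submodule.smul_mem _ _ hv.2)
    · show Complex.I • (c • v) ∈ tangent M z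
      rw [h2]
      exact sub_mem (Submodule.smul_mem _ _ hv.2) (Submodule.smul_mem _ _ hv.1)

/-- `M` is a real-analytic CR submanifold of `ℂⁿ` of real codimension `c` and CR dimension `m`. -/
def IsCRSubmanifold (c m : ℕ) (M : Set (Fin n → ℂ)) : Prop :=
  IsAnalyticSubmanifold c M ∧ ∀ z ∈ M, Module.finrank ℂ (ctangent M z) = m

/-- `T^c_z M` as a real subspace of `T_z M`. -/
noncomputable def ctangentIn (M : Set (Fin n → ℂ)) (z : Fin n → ℂ) :
    Submodule ℝ (tangent M z) :=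
  ((ctangent M z).restrictScalars ℝ).comap (tangent M z).subtype

/-- The quotient `N_z M = T_z M / T^c_z M`. -/
abbrev Normal (M : Set (Fin n → ℂ)) (z : Fin n → ℂ) : Type :=
  tangent M z ⧸ ctangentIn M z

/-- `ν = L_z(v)`: the value at `v ∈ T^c_z M` of the Levi form of `M` at `z`. It is the class in
`N_z M` of the Lie bracket `[X, iX](z)`, where `X` is a smooth section of `T^c M` near `z` with
`X(z) = v`. -/
def IsLevi (M : Set (Fin n → ℂ)) (z v : Fin n → ℂ) (ν : Normal M z) : Prop :=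
  ∃ X : (Fin n → ℂ) → (Fin n → ℂ), ContDiffAt ℝ ∞ X z ∧ (∀ᶠ w in 𝓝[M] z, X w ∈ ctangent M w) ∧
    X z = v ∧ ∃ h : VectorField.lieBracket ℝ X (fun w => Complex.I • X w) z ∈ tangent M z,
      ν = Submodule.Quotient.mk ⟨_, h⟩

/-- The set `K_z = {L_z(v) : v ∈ T^c_z M, |v| = 1}`. -/
def leviSet (M : Set (Fin n → ℂ)) (z : Fin n → ℂ) : Set (Normal M z) :=
  {ν | ∃ v ∈ ctangent M z, ∑ i, ‖v i‖ ^ 2 = 1 ∧ IsLevi M z v ν}

/-- Condition (L): at every point `z ∈ M` the Levi form is defined on the whole of `T^c_z M`,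
`0 ∉ conv K_z`, and the convex cone `C_z` generated by `K_z` has non-empty interior in `N_z M`. -/
def ConditionL (M : Set (Fin n → ℂ)) : Prop :=
  ∀ z ∈ M, (∀ v ∈ ctangent M z, ∃ ν, IsLevi M z v ν) ∧
    (0 : Normal M z) ∉ convexHull ℝ (leviSet M z) ∧
    (interior (Submodule.span ℝ≥0 (leviSet M z) : Set (Normal M z))).Nonempty

/-- `f : M₁ → M₂` is a CR mapping of class `C^k`: near every point of `M₁` it is the restriction of
a `C^k` map of `ℂⁿ`, whose differential maps `T^c_z M₁` complex-linearly into `T^c_{f(z)} M₂`. -/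
def IsCRMap (k : WithTop ℕ∞) (M₁ M₂ : Set (Fin n → ℂ)) (f : M₁ → M₂) : Prop :=
  ∀ z : M₁, ∃ g : (Fin n → ℂ) → (Fin n → ℂ), ContDiffAt ℝ k g z ∧
    (∀ᶠ w : M₁ in 𝓝 z, g w = f w) ∧
    ∀ v ∈ ctangent M₁ z, fderiv ℝ g z v ∈ ctangent M₂ (f z) ∧
      fderiv ℝ g z (Complex.I • v) = Complex.I • fderiv ℝ g z v

/-- `f : M₁ → M₂ ⊆ ℂⁿ` is the restriction to `M₁` of a holomorphic (that is, complex-analytic) map
`F : U → ℂⁿ` defined on an open neighbourhood `U` of `M₁` in `ℂⁿ`. -/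
def ExtendsHolomorphically (M₁ M₂ : Set (Fin n → ℂ)) (f : M₁ → M₂) : Prop :=
  ∃ U : Set (Fin n → ℂ), IsOpen U ∧ M₁ ⊆ U ∧ ∃ F : (Fin n → ℂ) → (Fin n → ℂ),
    AnalyticOnNhd ℂ F U ∧ ∀ z : M₁, F z = f z

end Pool.Agent.Lib.MP_2184e2_an
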