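import Pool.Agent.Lib.MP_2184e2_an.Sphere

/-!
The image `M₁ ⊆ ℂ⁴` of the sphere `S³` under `(s,t) ↦ (s², s³, t, st)`.
-/

set_option autoImplicit false

namespace Pool.Agent.Lib.MP_2184e2_an

open Set Filter Topology
open scoped ContDiff NNReal ComplexConjugate

/-- `(s,t) ↦ (s², s³, t, st)`. -/
def Phi (p : Fin 2 → ℂ) : Fin 4 → ℂ := ![p 0 ^ 2, p 0 ^ 3, p 1, p 0 * p 1]

/-- The differential of `Phi`. -/
def DPhi (p q : Fin 2 → ℂ) : Fin 4 → ℂ :=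
  ![2 * p 0 * q 0, 3 * p 0 ^ 2 * q 0, q 1, q 0 * p 1 + p 0 * q 1]

/-- The submanifold `M₁`. -/
def M1 : Set (Fin 4 → ℂ) := Phi '' Sph 2

lemma Phi_injective : Function.Injective Phi := by
  intro p q h
  have h0 : p 0 ^ 2 = q 0 ^ 2 := congrFun h 0
  have h1 : p 0 ^ 3 = q 0 ^ 3 := congrFun h 1
  have h2 : p 1 = q 1 := congrFun h 2
  have h3 : p 0 = q 0 := by
    by_cases hp : p 0 = 0
    · have : q 0 ^ 2 = 0 := by rw [← h0, hp]; ring
      rw [hp]; exact (pow_eq_zero_iff (by norm_num)).1 this |>.symm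
    · have e : p 0 ^ 2 * (p 0 - q 0) = 0 := by
        linear_combination h1 - q 0 * h0
      have : p 0 - q 0 = 0 := (mul_eq_zero.1 e).resolve_left (pow_ne_zero 2 hp)
      exact sub_eq_zero.1 this
  funext k
  fin_cases k
  · exact h3
  · exact h2

lemma hasDerivAt_Phi {γ : ℝ → Fin 2 → ℂ} {q : Fin 2 → ℂ} {θ : ℝ} (h : HasDerivAt γ q θ) :
    HasDerivAt (fun x => Phi (γ x)) (DPhi (γ θ) q) θ := by
  have h0 : HasDerivAt (fun x => γ x 0) (q 0) θ := (hasDerivAt_pi.1 h) 0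
  have h1 : HasDerivAt (fun x => γ x 1) (q 1) θ := (hasDerivAt_pi.1 h) 1
  rw [hasDerivAt_pi]
  intro i
  fin_cases i
  · refine (h0.pow 2).congr_deriv ?_
    simp [DPhi]
  · refine (h0.pow 3).congr_deriv ?_
    simp [DPhi]
  · exact h1
  · refine (h0.mul h1).congr_deriv ?_
    simp [DPhi]

lemma DPhi_smul (c : ℂ) (p q : Fin 2 → ℂ) : DPhi p (c • q) = c • DPhi p q := by
  ext k
  fin_cases k <;> simp [DPhi] <;> ring

lemma DPhi_add (p q r : Fin 2 → ℂ) : DPhi p (q + r) = DPhi p q + DPhi p r := by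
  ext k
  fin_cases k <;> simp [DPhi] <;> ring

lemma sph2_ne {p : Fin 2 → ℂ} (hp : p ∈ Sph 2) : p 0 ≠ 0 ∨ p 1 ≠ 0 := by
  by_contra h
  push Not at h
  have : ∑ i, ‖p i‖ ^ 2 = 1 := hp
  rw [Fin.sum_univ_two, h.1, h.2] at this
  simp at this

lemma DPhi_injective {p : Fin 2 → ℂ} (hp : p ∈ Sph 2) {q : Fin 2 → ℂ} (h : DPhi p q = 0) :
    q = 0 := by
  have h0 : 2 * p 0 * q 0 = 0 := congrFun h 0
  have h2 : q 1 = 0 := congrFun h 2
  have h3 : q 0 * p 1 + p 0 * q 1 = 0 := congrFun h 3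
  have h4 : q 0 = 0 := by
    rcases sph2_ne hp with hp0 | hp1
    · have : 2 * p 0 ≠ 0 := mul_ne_zero two_ne_zero hp0
      exact (mul_eq_zero.1 h0).resolve_left this
    · rw [h2, mul_zero, add_zero] at h3
      exact (mul_eq_zero.1 h3).resolve_right hp1
  funext k
  fin_cases k
  · exact h4
  · exact h2

/-- A local chart of `M₁` near `Phi p` (local left inverse `G` of `Phi`), together with a local
defining function `ρ`. -/
structure IsChart (p : Fin 2 → ℂ) (G : (Fin 4 → ℂ) → Fin 2 → ℂ)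
    (ρ : (Fin 4 → ℂ) → ℂ × ℂ × ℝ) : Prop where
  an : AnalyticAt ℂ G (Phi p)
  near : ∀ᶠ w in 𝓝 (Phi p), w ∈ M1 → Phi (G w) = w ∧ G w ∈ Sph 2
  der : ∀ᶠ w in 𝓝 (Phi p), w ∈ M1 → ∀ q, fderiv ℂ G w (DPhi (G w) q) = q
  ran : AnalyticAt ℝ ρ (Phi p)
  rzero : ∀ᶠ w in 𝓝 (Phi p), (w ∈ M1 ↔ ρ w = 0)
  rsurj : Function.Surjective (fderiv ℝ ρ (Phi p))
  rker : ∀ u, fderiv ℝ ρ (Phi p) u = 0 → ∃ q, (herm p q).re = 0 ∧ u = DPhi p q

/-- First chart. -/
noncomputable def GA (w : Fin 4 → ℂ) : Fin 2 → ℂ := ![w 3 / w 2, w 2]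

/-- Second chart. -/
noncomputable def GB (w : Fin 4 → ℂ) : Fin 2 → ℂ := ![w 1 / w 0, w 2]

lemma hasFDerivAt_div4 (i j : Fin 4) {w : Fin 4 → ℂ} (hw : w j ≠ 0) :
    ∃ L : (Fin 4 → ℂ) →L[ℂ] ℂ, HasFDerivAt (fun w : Fin 4 → ℂ => w i / w j) L w ∧
      ∀ u, L u = (u i * w j - w i * u j) / w j ^ 2 := by
  have hi : HasFDerivAt (fun w : Fin 4 → ℂ => w i)
    (ContinuousLinearMap.proj i : (Fin 4 → ℂ) →L[ℂ] ℂ) w := hasFDerivAt_apply i w
  have hj : HasFDerivAt (fun w : Fin 4 → ℂ => w j)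
    (ContinuousLinearMap.proj j : (Fin 4 → ℂ) →L[ℂ] ℂ) w := hasFDerivAt_apply j w
  have hinv := (hasDerivAt_inv hw).comp_hasFDerivAt w hj
  have hmul := hi.mul hinv
  refine ⟨_, hmul, ?_⟩
  intro u
  simp
  field_simp
  ring

lemma fderiv_GA {w : Fin 4 → ℂ} (hw : w 2 ≠ 0) (u : Fin 4 → ℂ) :
    DifferentiableAt ℂ GA w ∧ fderiv ℂ GA w u = ![(u 3 * w 2 - w 3 * u 2) / w 2 ^ 2, u 2] := by
  obtain ⟨L, hL, hLu⟩ := hasFDerivAt_div4 3 2 hw
  have h2 : HasFDerivAt (fun w : Fin 4 → ℂ => w 2)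
    (ContinuousLinearMap.proj 2 : (Fin 4 → ℂ) →L[ℂ] ℂ) w := hasFDerivAt_apply 2 w
  have h : HasFDerivAt GA (ContinuousLinearMap.pi ![L, ContinuousLinearMap.proj 2]) w := by
    rw [hasFDerivAt_pi']
    intro i
    fin_cases i
    · exact hL
    · exact h2
  refine ⟨h.differentiableAt, ?_⟩
  rw [h.fderiv]
  ext k
  fin_cases k
  · simp [hLu]
  · simp

lemma fderiv_GB {w : Fin 4 → ℂ} (hw : w 0 ≠ 0) (u : Fin 4 → ℂ) :
    DifferentiableAt ℂ GB w ∧ fderiv ℂ GB w u = ![(u 1 * w 0 - w 1 * u 0) / w 0 ^ 2, u 2] := by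
  obtain ⟨L, hL, hLu⟩ := hasFDerivAt_div4 1 0 hw
  have h2 : HasFDerivAt (fun w : Fin 4 → ℂ => w 2)
    (ContinuousLinearMap.proj 2 : (Fin 4 → ℂ) →L[ℂ] ℂ) w := hasFDerivAt_apply 2 w
  have h : HasFDerivAt GB (ContinuousLinearMap.pi ![L, ContinuousLinearMap.proj 2]) w := by
    rw [hasFDerivAt_pi']
    intro i
    fin_cases i
    · exact hL
    · exact h2
  refine ⟨h.differentiableAt, ?_⟩
  rw [h.fderiv]
  ext k
  fin_cases k
  · simp [hLu]
  · simp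

lemma analyticAt_coord {n : ℕ} (i : Fin n) (w : Fin n → ℂ) :
    AnalyticAt ℂ (fun w : Fin n → ℂ => w i) w :=
  (ContinuousLinearMap.proj i : (Fin n → ℂ) →L[ℂ] ℂ).analyticAt w

lemma analyticAt_GA {w : Fin 4 → ℂ} (hw : w 2 ≠ 0) : AnalyticAt ℂ GA w := by
  unfold GA
  rw [analyticAt_pi_iff]
  intro i
  fin_cases i
  · exact (analyticAt_coord 3 w).div (analyticAt_coord 2 w) hw
  · exact analyticAt_coord 2 w

lemma analyticAt_GB {w : Fin 4 → ℂ} (hw : w 0 ≠ 0) : AnalyticAt ℂ GB w := by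
  unfold GB
  rw [analyticAt_pi_iff]
  intro i
  fin_cases i
  · exact (analyticAt_coord 1 w).div (analyticAt_coord 0 w) hw
  · exact analyticAt_coord 2 w

lemma GA_Phi {p : Fin 2 → ℂ} (h : p 1 ≠ 0) : GA (Phi p) = p := by
  ext k
  fin_cases k
  · show p 0 * p 1 / p 1 = p 0
    field_simp
  · rfl

lemma GB_Phi {p : Fin 2 → ℂ} (h : p 0 ≠ 0) : GB (Phi p) = p := by
  ext k
  fin_cases k
  · show p 0 ^ 3 / p 0 ^ 2 = p 0
    field_simp
  · rfl

lemma hasFDerivAt_rho {G : (Fin 4 → ℂ) → Fin 2 → ℂ} {z : Fin 4 → ℂ}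
    {D : (Fin 4 → ℂ) →L[ℂ] (Fin 2 → ℂ)} (hD : HasFDerivAt G D z) {a b : (Fin 4 → ℂ) → ℂ}
    {a' b' : (Fin 4 → ℂ) →L[ℂ] ℂ} (ha : HasFDerivAt a a' z) (hb : HasFDerivAt b b' z) :
    ∃ L : (Fin 4 → ℂ) →L[ℝ] ℂ × ℂ × ℝ, HasFDerivAt (fun w => (a w, b w, qf (G w))) L z ∧
      ∀ u, L u = (a' u, b' u, 2 * (herm (G z) (D u)).re) := by
  obtain ⟨Q, hQ, hQu⟩ := hasFDerivAt_qf (G z)
  have h3 := hQ.comp z (hD.restrictScalars ℝ)
  refine ⟨_, (ha.restrictScalars ℝ).prodMk ((hb.restrictScalars ℝ).prodMk h3), ?_⟩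
  intro u
  simp [hQu]

lemma analyticAt_rho {G : (Fin 4 → ℂ) → Fin 2 → ℂ} {z : Fin 4 → ℂ} (hG : AnalyticAt ℂ G z)
    {a b : (Fin 4 → ℂ) → ℂ} (ha : AnalyticAt ℂ a z) (hb : AnalyticAt ℂ b z) :
    AnalyticAt ℝ (fun w => (a w, b w, qf (G w))) z := by
  have hG' : AnalyticAt ℝ G z := hG.restrictScalars
  have ha' : AnalyticAt ℝ a z := ha.restrictScalars
  have hb' : AnalyticAt ℝ b z := hb.restrictScalars
  exact ha'.prod (hb'.prod ((analyticAt_qf (G z)).comp hG'))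

lemma chartA {p : Fin 2 → ℂ} (hp : p ∈ Sph 2) (h1 : p 1 ≠ 0) :
    IsChart p GA (fun w => (w 0 - (GA w 0) ^ 2, w 1 - (GA w 0) ^ 3, qf (GA w))) := by
  have hz2 : (Phi p) 2 ≠ 0 := h1
  have hopen : ∀ᶠ w in 𝓝 (Phi p), w 2 ≠ 0 :=
    (continuous_apply 2).continuousAt.eventually_ne hz2
  have hG : HasFDerivAt GA (fderiv ℂ GA (Phi p)) (Phi p) :=
    (fderiv_GA hz2 0).1.hasFDerivAt
  have hG0 : HasFDerivAt (fun w => GA w 0)
      ((ContinuousLinearMap.proj 0 : (Fin 2 → ℂ) →L[ℂ] ℂ).comp (fderiv ℂ GA (Phi p))) (Phi p) :=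
    hasFDerivAt_pi'.1 hG 0
  have h0' : HasFDerivAt (fun w : Fin 4 → ℂ => w 0)
    (ContinuousLinearMap.proj 0 : (Fin 4 → ℂ) →L[ℂ] ℂ) (Phi p) := hasFDerivAt_apply 0 _
  have h1' : HasFDerivAt (fun w : Fin 4 → ℂ => w 1)
    (ContinuousLinearMap.proj 1 : (Fin 4 → ℂ) →L[ℂ] ℂ) (Phi p) := hasFDerivAt_apply 1 _
  obtain ⟨L, hL, hLu⟩ := hasFDerivAt_rho hG (h0'.sub (hG0.pow 2)) (h1'.sub (hG0.pow 3))
  have hL' : HasFDerivAt (fun w => (w 0 - (GA w 0) ^ 2, w 1 - (GA w 0) ^ 3, qf (GA w))) L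
    (Phi p) := hL
  have hGA0 : GA (Phi p) = p := GA_Phi h1
  refine ⟨analyticAt_GA hz2, ?_, ?_, ?_, ?_, ?_, ?_⟩
  · filter_upwards [hopen] with w hw
    rintro ⟨p', hp', rfl⟩
    rw [GA_Phi hw]
    exact ⟨rfl, hp'⟩
  · filter_upwards [hopen] with w hw
    rintro ⟨p', hp', rfl⟩ q
    have hw' : p' 1 ≠ 0 := hw
    rw [GA_Phi hw, (fderiv_GA hw _).2]
    ext k
    fin_cases k
    · simp [Phi, DPhi]
      field_simp
      ring
    · simp [Phi, DPhi]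
  · refine analyticAt_rho (analyticAt_GA hz2) ?_ ?_
    · have := (analyticAt_pi_iff.1 (analyticAt_GA hz2)) 0
      exact (analyticAt_coord 0 _).sub (this.pow 2)
    · have := (analyticAt_pi_iff.1 (analyticAt_GA hz2)) 0
      exact (analyticAt_coord 1 _).sub (this.pow 3)
  · filter_upwards [hopen] with w hw
    constructor
    · rintro ⟨p', hp', rfl⟩
      rw [GA_Phi hw, qf_eq_zero.2 hp']
      simp [Phi]
    · intro h
      have e0 : w 0 - (GA w 0) ^ 2 = 0 := congrArg Prod.fst h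
      have e1 : w 1 - (GA w 0) ^ 3 = 0 := congrArg (fun x => x.2.1) h
      have e2 : qf (GA w) = 0 := congrArg (fun x => x.2.2) h
      refine ⟨GA w, qf_eq_zero.1 e2, ?_⟩
      ext k
      fin_cases k
      · exact (sub_eq_zero.1 e0).symm
      · exact (sub_eq_zero.1 e1).symm
      · rfl
      · show w 3 / w 2 * w 2 = w 3
        field_simp
  · rintro ⟨α, β, γ⟩
    rw [hL'.fderiv]
    refine ⟨DPhi p (((γ / 2 : ℝ) : ℂ) • p) + ![α, β, 0, 0], ?_⟩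
    have hD : fderiv ℂ GA (Phi p) (DPhi p (((γ / 2 : ℝ) : ℂ) • p) + ![α, β, 0, 0]) =
        ((γ / 2 : ℝ) : ℂ) • p := by
      rw [(fderiv_GA hz2 _).2]
      ext k
      fin_cases k
      · simp [Phi, DPhi]
        field_simp
        ring
      · simp [Phi, DPhi]
    rw [hLu]
    simp only [sub_apply, smul_apply,
      ContinuousLinearMap.comp_apply, ContinuousLinearMap.proj_apply, hD, hGA0, herm_smul,
      herm_self, show (∑ i, ‖p i‖ ^ 2 : ℝ) = 1 from hp]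
    refine Prod.ext ?_ (Prod.ext ?_ ?_)
    · simp [DPhi]
    · simp [DPhi]
    · simp
      ring
  · intro u hu
    rw [hL'.fderiv, hLu] at hu
    set q := fderiv ℂ GA (Phi p) u with hq
    have hq2 := (fderiv_GA hz2 u).2
    rw [← hq] at hq2
    have e0 : u 0 - 2 * p 0 * q 0 = 0 := by
      have := congrArg Prod.fst hu
      simpa [← hq, hGA0] using this
    have e1 : u 1 - 3 * p 0 ^ 2 * q 0 = 0 := by
      have := congrArg (fun x => x.2.1) hu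
      simpa [← hq, hGA0] using this
    have e2 : 2 * (herm p q).re = 0 := by
      have := congrArg (fun x => x.2.2) hu
      simpa [← hq, hGA0] using this
    refine ⟨q, by linarith, ?_⟩
    have q0 : q 0 = (u 3 * p 1 - p 0 * p 1 * u 2) / p 1 ^ 2 := congrFun hq2 0
    have q1 : q 1 = u 2 := congrFun hq2 1
    ext k
    fin_cases k
    · exact sub_eq_zero.1 e0
    · exact sub_eq_zero.1 e1
    · exact q1.symm
    · show u 3 = q 0 * p 1 + p 0 * q 1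
      rw [q0, q1]
      field_simp
      ring

lemma chartB {p : Fin 2 → ℂ} (hp : p ∈ Sph 2) (h0 : p 0 ≠ 0) :
    IsChart p GB (fun w => (w 0 - (GB w 0) ^ 2, w 3 - GB w 0 * w 2, qf (GB w))) := by
  have hz0 : (Phi p) 0 ≠ 0 := pow_ne_zero 2 h0
  have hopen : ∀ᶠ w in 𝓝 (Phi p), w 0 ≠ 0 :=
    (continuous_apply 0).continuousAt.eventually_ne hz0
  have hG : HasFDerivAt GB (fderiv ℂ GB (Phi p)) (Phi p) :=
    (fderiv_GB hz0 0).1.hasFDerivAt
  have hG0 : HasFDerivAt (fun w => GB w 0)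
      ((ContinuousLinearMap.proj 0 : (Fin 2 → ℂ) →L[ℂ] ℂ).comp (fderiv ℂ GB (Phi p))) (Phi p) :=
    hasFDerivAt_pi'.1 hG 0
  have h0' : HasFDerivAt (fun w : Fin 4 → ℂ => w 0)
    (ContinuousLinearMap.proj 0 : (Fin 4 → ℂ) →L[ℂ] ℂ) (Phi p) := hasFDerivAt_apply 0 _
  have h2' : HasFDerivAt (fun w : Fin 4 → ℂ => w 2)
    (ContinuousLinearMap.proj 2 : (Fin 4 → ℂ) →L[ℂ] ℂ) (Phi p) := hasFDerivAt_apply 2 _
  have h3' : HasFDerivAt (fun w : Fin 4 → ℂ => w 3)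
    (ContinuousLinearMap.proj 3 : (Fin 4 → ℂ) →L[ℂ] ℂ) (Phi p) := hasFDerivAt_apply 3 _
  obtain ⟨L, hL, hLu⟩ := hasFDerivAt_rho hG (h0'.sub (hG0.pow 2)) (h3'.sub (hG0.mul h2'))
  have hL' : HasFDerivAt (fun w => (w 0 - (GB w 0) ^ 2, w 3 - GB w 0 * w 2, qf (GB w))) L
    (Phi p) := hL
  have hGB0 : GB (Phi p) = p := GB_Phi h0
  have hmem : ∀ p' : Fin 2 → ℂ, (Phi p') 0 ≠ 0 → p' 0 ≠ 0 := by
    intro p' h h'
    apply h
    show p' 0 ^ 2 = 0
    rw [h']; ring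
  refine ⟨analyticAt_GB hz0, ?_, ?_, ?_, ?_, ?_, ?_⟩
  · filter_upwards [hopen] with w hw
    rintro ⟨p', hp', rfl⟩
    rw [GB_Phi (hmem p' hw)]
    exact ⟨rfl, hp'⟩
  · filter_upwards [hopen] with w hw
    rintro ⟨p', hp', rfl⟩ q
    have hw' : p' 0 ≠ 0 := hmem p' hw
    rw [GB_Phi hw', (fderiv_GB hw _).2]
    ext k
    fin_cases k
    · simp [Phi, DPhi]
      field_simp
      ring
    · simp [Phi, DPhi]
  · refine analyticAt_rho (analyticAt_GB hz0) ?_ ?_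
    · have := (analyticAt_pi_iff.1 (analyticAt_GB hz0)) 0
      exact (analyticAt_coord 0 _).sub (this.pow 2)
    · have := (analyticAt_pi_iff.1 (analyticAt_GB hz0)) 0
      exact (analyticAt_coord 3 _).sub (this.mul (analyticAt_coord 2 _))
  · filter_upwards [hopen] with w hw
    constructor
    · rintro ⟨p', hp', rfl⟩
      rw [GB_Phi (hmem p' hw), qf_eq_zero.2 hp']
      simp [Phi]
    · intro h
      have e0 : w 0 - (GB w 0) ^ 2 = 0 := congrArg Prod.fst h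
      have e1 : w 3 - GB w 0 * w 2 = 0 := congrArg (fun x => x.2.1) h
      have e2 : qf (GB w) = 0 := congrArg (fun x => x.2.2) h
      refine ⟨GB w, qf_eq_zero.1 e2, ?_⟩
      ext k
      fin_cases k
      · exact (sub_eq_zero.1 e0).symm
      · show (GB w 0) ^ 3 = w 1
        have e3 : (GB w 0) ^ 3 = GB w 0 * w 0 := by rw [sub_eq_zero.1 e0]; ring
        rw [e3]
        show w 1 / w 0 * w 0 = w 1
        field_simp
      · rfl
      · exact (sub_eq_zero.1 e1).symm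
  · rintro ⟨α, β, γ⟩
    rw [hL'.fderiv]
    refine ⟨DPhi p (((γ / 2 : ℝ) : ℂ) • p) + ![α, p 0 * α, 0, β], ?_⟩
    have hD : fderiv ℂ GB (Phi p) (DPhi p (((γ / 2 : ℝ) : ℂ) • p) + ![α, p 0 * α, 0, β]) =
        ((γ / 2 : ℝ) : ℂ) • p := by
      rw [(fderiv_GB hz0 _).2]
      ext k
      fin_cases k
      · simp [Phi, DPhi]
        field_simp
        ring
      · simp [Phi, DPhi]
    rw [hLu]
    simp only [sub_apply, smul_apply, add_apply,
      ContinuousLinearMap.comp_apply, ContinuousLinearMap.proj_apply, hD, hGB0, herm_smul,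
      herm_self, show (∑ i, ‖p i‖ ^ 2 : ℝ) = 1 from hp]
    refine Prod.ext ?_ (Prod.ext ?_ ?_)
    · simp [DPhi]
    · simp [DPhi, Phi]
      ring
    · simp
      ring
  · intro u hu
    rw [hL'.fderiv, hLu] at hu
    set q := fderiv ℂ GB (Phi p) u with hq
    have hq2 := (fderiv_GB hz0 u).2
    rw [← hq] at hq2
    have q0 : q 0 = (u 1 * p 0 ^ 2 - p 0 ^ 3 * u 0) / (p 0 ^ 2) ^ 2 := congrFun hq2 0
    have q1 : q 1 = u 2 := congrFun hq2 1
    have e0 : u 0 - 2 * p 0 * q 0 = 0 := by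
      have := congrArg Prod.fst hu
      simpa [← hq, hGB0] using this
    have e1 : u 3 - (p 0 * u 2 + p 1 * q 0) = 0 := by
      have := congrArg (fun x => x.2.1) hu
      have hP : Phi p 2 = p 1 := rfl
      simpa [← hq, hGB0, hP] using this
    have e2 : 2 * (herm p q).re = 0 := by
      have := congrArg (fun x => x.2.2) hu
      simpa [← hq, hGB0] using this
    refine ⟨q, by linarith, ?_⟩
    ext k
    fin_cases k
    · exact sub_eq_zero.1 e0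
    · show u 1 = 3 * p 0 ^ 2 * q 0
      have e3 : q 0 * p 0 ^ 2 = u 1 - p 0 * u 0 := by
        rw [q0]; field_simp
      have e4 : u 0 = 2 * p 0 * q 0 := sub_eq_zero.1 e0
      rw [e4] at e3
      linear_combination -e3
    · exact q1.symm
    · show u 3 = q 0 * p 1 + p 0 * q 1
      rw [q1]
      linear_combination e1

lemma exists_chart {p : Fin 2 → ℂ} (hp : p ∈ Sph 2) : ∃ G ρ, IsChart p G ρ := by
  rcases sph2_ne hp with h | h
  · exact ⟨_, _, chartB hp h⟩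
  · exact ⟨_, _, chartA hp h⟩

lemma mem_M1 {p : Fin 2 → ℂ} (hp : p ∈ Sph 2) : Phi p ∈ M1 := ⟨p, hp, rfl⟩

lemma mem_tangent_M1 {p : Fin 2 → ℂ} (hp : p ∈ Sph 2) {u : Fin 4 → ℂ} :
    u ∈ tangent M1 (Phi p) ↔ ∃ q, (herm p q).re = 0 ∧ u = DPhi p q := by
  constructor
  · intro hu
    obtain ⟨G, ρ, h⟩ := exists_chart hp
    refine h.rker u ?_
    refine fderiv_tangent (mem_M1 hp) h.ran.differentiableAt ?_ hu
    filter_upwards [nhdsWithin_le_nhds h.rzero, self_mem_nhdsWithin] with w hw1 hw2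
    exact hw1.1 hw2
  · rintro ⟨q, hq, rfl⟩
    obtain ⟨γ, h1, h2, h3⟩ := sphere_curve hp hq
    have h4 := hasDerivAt_Phi h1
    rw [h2] at h4
    refine mem_tangent_of_curve h4 ?_ fun θ => ⟨γ θ, h3 θ, rfl⟩
    rw [h2]

lemma mem_ctangent_M1 {p : Fin 2 → ℂ} (hp : p ∈ Sph 2) {u : Fin 4 → ℂ} :
    u ∈ ctangent M1 (Phi p) ↔ ∃ q, herm p q = 0 ∧ u = DPhi p q := by
  have h : u ∈ ctangent M1 (Phi p) ↔
    u ∈ tangent M1 (Phi p) ∧ Complex.I • u ∈ tangent M1 (Phi p) := Iff.rfl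
  rw [h, mem_tangent_M1 hp, mem_tangent_M1 hp]
  constructor
  · rintro ⟨⟨q, hq, rfl⟩, ⟨r, hr, hr2⟩⟩
    refine ⟨q, ?_, rfl⟩
    rw [← DPhi_smul] at hr2
    have h1 : Complex.I • q - r = 0 := by
      apply DPhi_injective hp
      have h2 : DPhi p (Complex.I • q - r) = DPhi p (Complex.I • q) + DPhi p ((-1 : ℂ) • r) := by
        rw [← DPhi_add]; congr 1; simp [sub_eq_add_neg]
      rw [h2, hr2, DPhi_smul]
      simp
    have h2 : r = Complex.I • q := (sub_eq_zero.1 h1).symm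
    rw [h2, herm_smul] at hr
    apply Complex.ext hq
    simpa using hr
  · rintro ⟨q, hq, rfl⟩
    refine ⟨⟨q, by rw [hq]; rfl, rfl⟩, ⟨Complex.I • q, ?_, ?_⟩⟩
    · rw [herm_smul, hq]; simp
    · rw [DPhi_smul]

end Pool.Agent.Lib.MP_2184e2_an
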