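import Pool.Agent.Lib.MP_2184e2_an.Example

/-!
`M₁` is a compact strongly pseudoconvex CR submanifold; the CR mapping `f : M₁ → S⁷`.
-/

set_option autoImplicit false

namespace Pool.Agent.Lib.MP_2184e2_an

open Set Filter Topology
open scoped ContDiff NNReal ComplexConjugate

lemma analytic_M1 : IsAnalyticSubmanifold 5 M1 := by
  rintro _ ⟨p, hp, rfl⟩
  obtain ⟨G, ρ, h⟩ := exists_chart hp
  have hf : Module.finrank ℝ (ℂ × ℂ × ℝ) = Module.finrank ℝ (Fin 5 → ℝ) := by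
    simp [Module.finrank_prod]
  let e : (ℂ × ℂ × ℝ) ≃L[ℝ] (Fin 5 → ℝ) := ContinuousLinearEquiv.ofFinrankEq hf
  refine ⟨fun w => e (ρ w), ?_, ?_, ?_⟩
  · exact (e.toContinuousLinearMap.analyticAt (ρ (Phi p))).comp h.ran
  · have hd : HasFDerivAt (fun w => e (ρ w)) (e.toContinuousLinearMap.comp (fderiv ℝ ρ (Phi p)))
        (Phi p) := e.toContinuousLinearMap.hasFDerivAt.comp _ h.ran.differentiableAt.hasFDerivAt
    rw [hd.fderiv]
    exact e.surjective.comp h.rsurj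
  · filter_upwards [h.rzero] with w hw
    rw [hw]
    exact (map_eq_zero_iff e e.injective).symm

/-- The generator of `T^c S³`. -/
noncomputable def jv (p : Fin 2 → ℂ) : Fin 2 → ℂ := ![-conj (p 1), conj (p 0)]

lemma herm_jv (p : Fin 2 → ℂ) : herm p (jv p) = 0 := by
  unfold herm jv
  rw [Fin.sum_univ_two]
  simp
  ring

lemma sph2_mul {p : Fin 2 → ℂ} (hp : p ∈ Sph 2) : conj (p 0) * p 0 + conj (p 1) * p 1 = 1 := by
  have h := herm_self p
  rw [show (∑ i, ‖p i‖ ^ 2 : ℝ) = 1 from hp] at h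
  unfold herm at h
  rw [Fin.sum_univ_two] at h
  simpa using h

lemma eq_smul_jv {p q : Fin 2 → ℂ} (hp : p ∈ Sph 2) (hq : herm p q = 0) :
    q = (p 0 * q 1 - p 1 * q 0) • jv p := by
  have h1 := sph2_mul hp
  have h2 : conj (p 0) * q 0 + conj (p 1) * q 1 = 0 := by
    unfold herm at hq
    rwa [Fin.sum_univ_two] at hq
  ext k
  fin_cases k
  · show q 0 = (p 0 * q 1 - p 1 * q 0) * (-conj (p 1))
    linear_combination (-q 0) * h1 + p 0 * h2
  · show q 1 = (p 0 * q 1 - p 1 * q 0) * conj (p 0)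
    linear_combination (-q 1) * h1 + p 1 * h2

lemma jv_ne {p : Fin 2 → ℂ} (hp : p ∈ Sph 2) : jv p ≠ 0 := by
  intro h
  have h0 : -conj (p 1) = 0 := congrFun h 0
  have h1 : conj (p 0) = 0 := congrFun h 1
  have h0' : p 1 = 0 := by simpa using h0
  have h1' : p 0 = 0 := by simpa using h1
  rcases sph2_ne hp with h | h <;> contradiction

lemma finrank_ctangent_M1 {z : Fin 4 → ℂ} (hz : z ∈ M1) :
    Module.finrank ℂ (ctangent M1 z) = 1 := by
  obtain ⟨p, hp, rfl⟩ := hz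
  have h : ctangent M1 (Phi p) = Submodule.span ℂ {DPhi p (jv p)} := by
    ext u
    rw [mem_ctangent_M1 hp, Submodule.mem_span_singleton]
    constructor
    · rintro ⟨q, hq, rfl⟩
      refine ⟨p 0 * q 1 - p 1 * q 0, ?_⟩
      rw [← DPhi_smul, ← eq_smul_jv hp hq]
    · rintro ⟨c, rfl⟩
      refine ⟨c • jv p, ?_, ?_⟩
      · rw [herm_smul, herm_jv, mul_zero]
      · rw [DPhi_smul]
  rw [h]
  apply finrank_span_singleton
  intro h0
  exact jv_ne hp (DPhi_injective hp h0)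

lemma section_M1 {p : Fin 2 → ℂ} (hp : p ∈ Sph 2) {G : (Fin 4 → ℂ) → Fin 2 → ℂ}
    {ρ : (Fin 4 → ℂ) → ℂ × ℂ × ℝ} (h : IsChart p G ρ) {v : Fin 4 → ℂ}
    (hv : v ∈ ctangent M1 (Phi p)) :
    ∃ X : (Fin 4 → ℂ) → Fin 4 → ℂ, ContDiffAt ℝ ∞ X (Phi p) ∧
      (∀ᶠ w in 𝓝[M1] (Phi p), X w ∈ ctangent M1 w) ∧ X (Phi p) = v := by
  obtain ⟨q, hq, rfl⟩ := (mem_ctangent_M1 hp).1 hv
  have hGp : G (Phi p) = p := by
    have := h.near.self_of_nhds (mem_M1 hp)
    exact Phi_injective this.1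
  refine ⟨fun w => (p 0 * q 1 - p 1 * q 0) • DPhi (G w) (jv (G w)), ?_, ?_, ?_⟩
  · have hGr : AnalyticAt ℝ G (Phi p) := h.an.restrictScalars
    have hG : ContDiffAt ℝ ∞ G (Phi p) := hGr.contDiffAt
    have h0 : ContDiffAt ℝ ∞ (fun w => G w 0) (Phi p) := contDiffAt_pi.1 hG 0
    have h1 : ContDiffAt ℝ ∞ (fun w => G w 1) (Phi p) := contDiffAt_pi.1 hG 1
    have c0 : ContDiffAt ℝ ∞ (fun w => conj (G w 0)) (Phi p) :=
      Complex.conjCLE.contDiff.contDiffAt.comp _ h0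
    have c1 : ContDiffAt ℝ ∞ (fun w => conj (G w 1)) (Phi p) :=
      Complex.conjCLE.contDiff.contDiffAt.comp _ h1
    have hm : ContDiffAt ℝ ∞ (fun w => DPhi (G w) (jv (G w))) (Phi p) := by
      rw [contDiffAt_pi]
      intro k
      fin_cases k
      · exact (contDiffAt_const.mul h0).mul c1.neg
      · exact (contDiffAt_const.mul (h0.pow 2)).mul c1.neg
      · exact c0
      · exact (c1.neg.mul h1).add (h0.mul c0)
    have hcs : ContDiff ℝ ∞ (fun x : Fin 4 → ℂ => (p 0 * q 1 - p 1 * q 0) • x) :=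
      ((p 0 * q 1 - p 1 * q 0) • (ContinuousLinearMap.id ℝ (Fin 4 → ℂ))).contDiff
    exact hcs.contDiffAt.comp _ hm
  · filter_upwards [nhdsWithin_le_nhds h.near, self_mem_nhdsWithin] with w hw1 hw2
    obtain ⟨e1, e2⟩ := hw1 hw2
    apply Submodule.smul_mem
    have e3 : DPhi (G w) (jv (G w)) ∈ ctangent M1 (Phi (G w)) :=
      (mem_ctangent_M1 e2).2 ⟨_, herm_jv _, rfl⟩
    rwa [e1] at e3
  · show (p 0 * q 1 - p 1 * q 0) • DPhi (G (Phi p)) (jv (G (Phi p))) = DPhi p q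
    rw [hGp, ← DPhi_smul, ← eq_smul_jv hp hq]

lemma conditionL_M1 : ConditionL M1 := by
  rintro _ ⟨p, hp, rfl⟩
  obtain ⟨G, ρ, h⟩ := exists_chart hp
  have hGp : G (Phi p) = p := by
    have := h.near.self_of_nhds (mem_M1 hp)
    exact Phi_injective this.1
  have hD : ∀ q, fderiv ℂ G (Phi p) (DPhi p q) = q := by
    have := h.der.self_of_nhds (mem_M1 hp)
    rwa [hGp] at this
  refine conditionL_at (G := G) (ρ := ρ) (mem_M1 hp) h.an ?_ ?_ ?_ ?_ ?_ h.ran ?_ ?_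
  · filter_upwards [nhdsWithin_le_nhds h.near, nhdsWithin_le_nhds h.der, self_mem_nhdsWithin]
      with w hw1 hw2 hw3 u hu
    obtain ⟨e1, e2⟩ := hw1 hw3
    rw [← e1] at hu
    obtain ⟨q, hq, rfl⟩ := (mem_ctangent_M1 e2).1 hu
    rw [hw2 hw3 q]
    exact hq
  · intro u hu hl
    obtain ⟨q, hq, rfl⟩ := (mem_tangent_M1 hp).1 hu
    rw [ell_apply, hD, hGp] at hl
    rw [mem_ctangent_M1 hp]
    refine ⟨q, ?_, rfl⟩
    apply Complex.ext hq
    exact neg_eq_zero.1 hl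
  · intro v hv h0
    obtain ⟨q, hq, rfl⟩ := (mem_ctangent_M1 hp).1 hv
    rw [hD] at h0
    rw [h0]
    ext k
    fin_cases k <;> simp [DPhi]
  · refine ⟨DPhi p (jv p), (mem_ctangent_M1 hp).2 ⟨_, herm_jv p, rfl⟩, ?_⟩
    intro h0
    exact jv_ne hp (DPhi_injective hp h0)
  · intro v hv
    exact section_M1 hp h hv
  · filter_upwards [h.rzero] with w hw hw'
    exact hw.1 hw'
  · intro u hu
    rw [mem_tangent_M1 hp]
    exact h.rker u hu

/-- The embedding `(s,t) ↦ (s,t,0,0)`. -/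
def emb (p : Fin 2 → ℂ) : Fin 4 → ℂ := ![p 0, p 1, 0, 0]

lemma emb_mem {p : Fin 2 → ℂ} (hp : p ∈ Sph 2) : emb p ∈ Sph 4 := by
  show ∑ i, ‖emb p i‖ ^ 2 = 1
  have : ∑ i, ‖p i‖ ^ 2 = 1 := hp
  rw [Fin.sum_univ_two] at this
  rw [Fin.sum_univ_four]
  simpa [emb] using this

/-- The CR mapping `f : M₁ → S⁷`, `f(s², s³, t, st) = (s,t,0,0)`. -/
noncomputable def fmap (w : M1) : Sph 4 := ⟨emb (Classical.choose w.2),
  emb_mem (Classical.choose_spec w.2).1⟩

lemma fmap_apply {p : Fin 2 → ℂ} (hp : p ∈ Sph 2) : (fmap ⟨Phi p, mem_M1 hp⟩ : Fin 4 → ℂ) = emb p := by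
  unfold fmap
  have h := (Classical.choose_spec (⟨Phi p, mem_M1 hp⟩ : M1).2).2
  have h2 := Phi_injective h
  show emb _ = emb p
  rw [h2]

/-- `emb` as a continuous linear map. -/
noncomputable def embL : (Fin 2 → ℂ) →L[ℂ] (Fin 4 → ℂ) :=
  ContinuousLinearMap.pi ![ContinuousLinearMap.proj 0, ContinuousLinearMap.proj 1, 0, 0]

lemma embL_apply (p : Fin 2 → ℂ) : embL p = emb p := by
  ext k
  fin_cases k <;> simp [embL, emb]

lemma herm_emb (p q : Fin 2 → ℂ) : herm (emb p) (emb q) = herm p q := by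
  unfold herm
  rw [Fin.sum_univ_two, Fin.sum_univ_four]
  simp [emb]

lemma fmap_eq {w : Fin 4 → ℂ} (hw : w ∈ M1) {p : Fin 2 → ℂ} (hp : p ∈ Sph 2) (h : Phi p = w) :
    (fmap ⟨w, hw⟩ : Fin 4 → ℂ) = emb p := by
  subst h
  exact fmap_apply hp

lemma isCRMap_fmap (k : WithTop ℕ∞) : IsCRMap k M1 (Sph 4) fmap := by
  rintro ⟨_, p, hp, rfl⟩
  obtain ⟨G, ρ, h⟩ := exists_chart hp
  have hGp : G (Phi p) = p := by
    have := h.near.self_of_nhds (mem_M1 hp)
    exact Phi_injective this.1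
  have hD : ∀ q, fderiv ℂ G (Phi p) (DPhi p q) = q := by
    have := h.der.self_of_nhds (mem_M1 hp)
    rwa [hGp] at this
  have hc : HasFDerivAt (fun w => embL (G w)) (embL.comp (fderiv ℂ G (Phi p))) (Phi p) :=
    embL.hasFDerivAt.comp _ h.an.differentiableAt.hasFDerivAt
  have hr : HasFDerivAt (𝕜 := ℝ) (fun w => embL (G w))
    ((embL.comp (fderiv ℂ G (Phi p))).restrictScalars ℝ) (Phi p) := hc.restrictScalars ℝ
  refine ⟨fun w => embL (G w), ?_, ?_, ?_⟩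
  · have h1 : AnalyticAt ℂ (fun w => embL (G w)) (Phi p) :=
      (embL.analyticAt (G (Phi p))).comp h.an
    have h2 : AnalyticAt ℝ (fun w => embL (G w)) (Phi p) := h1.restrictScalars
    exact h2.contDiffAt
  · have h1 : ∀ᶠ w : M1 in 𝓝 ⟨Phi p, mem_M1 hp⟩, ((w : Fin 4 → ℂ) ∈ M1 →
        Phi (G w) = w ∧ G w ∈ Sph 2) := by
      have h2 : Tendsto (fun w : M1 => (w : Fin 4 → ℂ)) (𝓝 ⟨Phi p, mem_M1 hp⟩) (𝓝 (Phi p)) :=
        continuous_subtype_val.tendsto _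
      exact h2.eventually h.near
    filter_upwards [h1] with w hw
    obtain ⟨e1, e2⟩ := hw w.2
    rw [embL_apply]
    exact (fmap_eq w.2 e2 e1).symm
  · intro v hv
    obtain ⟨q, hq, rfl⟩ := (mem_ctangent_M1 hp).1 hv
    have e : fderiv ℝ (fun w => embL (G w)) (Phi p) (DPhi p q) = emb q := by
      rw [hr.fderiv]
      show embL (fderiv ℂ G (Phi p) (DPhi p q)) = emb q
      rw [hD, embL_apply]
    constructor
    · rw [e]
      have h2 : (fmap ⟨Phi p, mem_M1 hp⟩ : Fin 4 → ℂ) = emb p := fmap_apply hp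
      show emb q ∈ ctangent (Sph 4) (fmap ⟨Phi p, mem_M1 hp⟩ : Fin 4 → ℂ)
      rw [h2, mem_ctangent_sph (emb_mem hp), herm_emb, hq]
    · rw [e, hr.fderiv]
      show embL (fderiv ℂ G (Phi p) (Complex.I • DPhi p q)) = Complex.I • emb q
      rw [map_smul, map_smul, hD, embL_apply]

/-- `f` extends holomorphically near every point of `M₁`. -/
lemma fmap_local (z : M1) : ∃ g : (Fin 4 → ℂ) → (Fin 4 → ℂ), AnalyticAt ℂ g z ∧
    ∀ᶠ w : M1 in 𝓝 z, g w = fmap w := by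
  obtain ⟨_, p, hp, rfl⟩ := z
  obtain ⟨G, ρ, h⟩ := exists_chart hp
  refine ⟨fun w => embL (G w), (embL.analyticAt (G (Phi p))).comp h.an, ?_⟩
  have h1 : ∀ᶠ w : M1 in 𝓝 ⟨Phi p, mem_M1 hp⟩, ((w : Fin 4 → ℂ) ∈ M1 →
      Phi (G w) = w ∧ G w ∈ Sph 2) := by
    have h2 : Tendsto (fun w : M1 => (w : Fin 4 → ℂ)) (𝓝 ⟨Phi p, mem_M1 hp⟩) (𝓝 (Phi p)) :=
      continuous_subtype_val.tendsto _
    exact h2.eventually h.near
  filter_upwards [h1] with w hw
  obtain ⟨e1, e2⟩ := hw w.2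
  rw [embL_apply]
  exact (fmap_eq w.2 e2 e1).symm

lemma fmap_injective : Function.Injective fmap := by
  rintro ⟨_, p, hp, rfl⟩ ⟨_, q, hq, rfl⟩ h
  have h' : (fmap ⟨Phi p, mem_M1 hp⟩ : Fin 4 → ℂ) = fmap ⟨Phi q, mem_M1 hq⟩ :=
    congrArg Subtype.val h
  rw [fmap_apply hp, fmap_apply hq] at h'
  have h0 : p 0 = q 0 := congrFun h' 0
  have h1 : p 1 = q 1 := congrFun h' 1
  have : p = q := by
    ext k
    fin_cases k
    · exact h0
    · exact h1
  subst this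
  rfl

lemma continuous_Phi : Continuous Phi := by
  unfold Phi
  refine continuous_pi fun k => ?_
  fin_cases k
  · exact (continuous_apply 0).pow 2
  · exact (continuous_apply 0).pow 3
  · exact continuous_apply 1
  · exact (continuous_apply 0).mul (continuous_apply 1)

lemma isCompact_sph (n : ℕ) : IsCompact (Sph n) := by
  rw [Metric.isCompact_iff_isClosed_bounded]
  constructor
  · exact isClosed_eq (continuous_finsetSum _ fun i _ => ((continuous_apply i).norm.pow 2))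
      continuous_const
  · rw [isBounded_iff_forall_norm_le]
    refine ⟨1, fun x hx => ?_⟩
    rw [pi_norm_le_iff_of_nonneg (by norm_num)]
    intro i
    have h1 : ‖x i‖ ^ 2 ≤ ∑ j, ‖x j‖ ^ 2 :=
      Finset.single_le_sum (f := fun j => ‖x j‖ ^ 2) (fun j _ => by positivity) (Finset.mem_univ i)
    have h2 : ∑ j, ‖x j‖ ^ 2 = 1 := hx
    nlinarith [norm_nonneg (x i)]

lemma isCompact_M1 : IsCompact M1 := (isCompact_sph 2).image continuous_Phi

end Pool.Agent.Lib.MP_2184e2_an
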