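import Pool.Agent.Lib.MP_2184e2_an.Defs

/-!
General lemmas on tangent spaces and Levi forms.
-/

set_option autoImplicit false

namespace Pool.Agent.Lib.MP_2184e2_an

open Set Filter Topology
open scoped ContDiff NNReal ComplexConjugate

variable {n : ℕ} {M : Set (Fin n → ℂ)} {z : Fin n → ℂ}

/-- A function vanishing on `M` near `z` has a differential vanishing on `T_z M`. -/
lemma fderiv_tangent {F : Type*} [NormedAddCommGroup F] [NormedSpace ℝ F]
    {ψ : (Fin n → ℂ) → F} (hz : z ∈ M) (hψ : DifferentiableAt ℝ ψ z)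
    (h0 : ∀ᶠ w in 𝓝[M] z, ψ w = 0) {u : Fin n → ℂ} (hu : u ∈ tangent M z) :
    fderiv ℝ ψ z u = 0 := by
  have h1 : HasFDerivWithinAt ψ (fderiv ℝ ψ z) M z := hψ.hasFDerivAt.hasFDerivWithinAt
  have h2 : HasFDerivWithinAt ψ (0 : (Fin n → ℂ) →L[ℝ] F) M z := by
    refine (hasFDerivWithinAt_const (0 : F) z M).congr_of_eventuallyEq h0 ?_
    exact h0.self_of_nhdsWithin hz
  have h3 := h1.unique_on h2
  refine Submodule.span_induction (p := fun u _ => fderiv ℝ ψ z u = 0) ?_ ?_ ?_ ?_ hu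
  · intro x hx
    simpa using h3 hx
  · simp
  · intro x y _ _ hx hy
    rw [map_add, hx, hy, add_zero]
  · intro a x _ hx
    rw [map_smul, hx, smul_zero]

/-- Velocities of curves in `M` are tangent to `M`. -/
lemma mem_tangent_of_curve {γ : ℝ → Fin n → ℂ} {v : Fin n → ℂ} (hγ : HasDerivAt γ v 0)
    (h0 : γ 0 = z) (hM : ∀ θ, γ θ ∈ M) : v ∈ tangent M z := by
  apply Submodule.subset_span
  have h1 : HasFDerivWithinAt γ (ContinuousLinearMap.toSpanSingleton ℝ v) univ 0 :=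
    hγ.hasFDerivAt.hasFDerivWithinAt
  have h2 := h1.mapsTo_tangent_cone
  rw [h0] at h2
  have h3 : (ContinuousLinearMap.toSpanSingleton ℝ v) 1 ∈ tangentConeAt ℝ (γ '' univ) z := by
    apply h2
    rw [tangentConeAt_univ]
    trivial
  have h4 : tangentConeAt ℝ (γ '' univ) z ⊆ tangentConeAt ℝ M z := by
    apply tangentConeAt_mono
    rintro _ ⟨θ, _, rfl⟩
    exact hM θ
  simpa using h4 h3

/-- Brackets of tangent fields are tangent. -/
lemma bracket_ker {F : Type*} [NormedAddCommGroup F] [NormedSpace ℝ F]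
    {ρ : (Fin n → ℂ) → F} (hz : z ∈ M) (hρ : ContDiffAt ℝ 2 ρ z)
    (h0 : ∀ᶠ w in 𝓝[M] z, ∀ u ∈ tangent M w, fderiv ℝ ρ w u = 0)
    {X Y : (Fin n → ℂ) → Fin n → ℂ} (hX : DifferentiableAt ℝ X z) (hY : DifferentiableAt ℝ Y z)
    (hXt : ∀ᶠ w in 𝓝[M] z, X w ∈ tangent M w) (hYt : ∀ᶠ w in 𝓝[M] z, Y w ∈ tangent M w) :
    fderiv ℝ ρ z (VectorField.lieBracket ℝ X Y z) = 0 := by
  have hd : DifferentiableAt ℝ (fderiv ℝ ρ) z :=
    (hρ.fderiv_right (m := 1) (by norm_num)).differentiableAt (by norm_num)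
  have key : ∀ {Z : (Fin n → ℂ) → Fin n → ℂ}, DifferentiableAt ℝ Z z →
      (∀ᶠ w in 𝓝[M] z, Z w ∈ tangent M w) → ∀ u ∈ tangent M z,
      fderiv ℝ (fderiv ℝ ρ) z u (Z z) + fderiv ℝ ρ z (fderiv ℝ Z z u) = 0 := by
    intro Z hZ hZt u hu
    have h1 : HasFDerivAt (fun w => fderiv ℝ ρ w (Z w)) _ z :=
      hd.hasFDerivAt.clm_apply hZ.hasFDerivAt
    have h2 := fderiv_tangent (M := M) hz h1.differentiableAt
      (by filter_upwards [h0, hZt] with w hw1 hw2 using hw1 _ hw2) hu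
    rw [h1.fderiv] at h2
    simpa [add_comm] using h2
  have hXz : X z ∈ tangent M z := hXt.self_of_nhdsWithin hz
  have hYz : Y z ∈ tangent M z := hYt.self_of_nhdsWithin hz
  have e1 := key hX hXt _ hYz
  have e2 := key hY hYt _ hXz
  have hs : fderiv ℝ (fderiv ℝ ρ) z (X z) (Y z) = fderiv ℝ (fderiv ℝ ρ) z (Y z) (X z) := by
    have := hρ.isSymmSndFDerivAt (by simp)
    exact this _ _
  rw [VectorField.lieBracket, map_sub]
  have e3 : fderiv ℝ ρ z (fderiv ℝ Y z (X z)) = -fderiv ℝ (fderiv ℝ ρ) z (X z) (Y z) := by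
    rw [eq_neg_iff_add_eq_zero, add_comm]; exact e2
  have e4 : fderiv ℝ ρ z (fderiv ℝ X z (Y z)) = -fderiv ℝ (fderiv ℝ ρ) z (Y z) (X z) := by
    rw [eq_neg_iff_add_eq_zero, add_comm]; exact e1
  rw [e3, e4, hs]
  simp

/-- The key computation of the Levi form. -/
lemma levi_key {m : ℕ} {G : (Fin n → ℂ) → Fin m → ℂ} (hz : z ∈ M) (hG : AnalyticAt ℂ G z)
    (hM : ∀ᶠ w in 𝓝[M] z, ∀ u ∈ ctangent M w, ∑ j, conj (G w j) * fderiv ℂ G w u j = 0)
    {X : (Fin n → ℂ) → Fin n → ℂ} (hX : DifferentiableAt ℝ X z)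
    (hXt : ∀ᶠ w in 𝓝[M] z, X w ∈ ctangent M w) :
    ∑ j, conj (G z j) *
        fderiv ℂ G z (VectorField.lieBracket ℝ X (fun w => Complex.I • X w) z) j =
      -2 * Complex.I * ∑ j, (‖fderiv ℂ G z (X z) j‖ ^ 2 : ℂ) := by
  -- derivative of `w ↦ DG_w (X w)`
  have hGd : DifferentiableAt ℂ (fderiv ℂ G) z := hG.fderiv.differentiableAt
  have hA : HasFDerivAt (𝕜 := ℝ) (fun w => fderiv ℂ G w)
      ((fderiv ℂ (fderiv ℂ G) z).restrictScalars ℝ) z := hGd.hasFDerivAt.restrictScalars ℝ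
  have hGr : HasFDerivAt (𝕜 := ℝ) G ((fderiv ℂ G z).restrictScalars ℝ) z :=
    hG.differentiableAt.hasFDerivAt.restrictScalars ℝ
  set v := X z with hv
  set D := fderiv ℂ G z with hD
  set D2 := fderiv ℂ (fderiv ℂ G) z with hD2
  set X' := fderiv ℝ X z with hX'
  have hc : HasFDerivAt (𝕜 := ℝ) (fun w => (fderiv ℂ G w).restrictScalars ℝ)
      ((ContinuousLinearMap.restrictScalarsL ℂ (Fin n → ℂ) (Fin m → ℂ) ℝ ℝ).comp
        (D2.restrictScalars ℝ)) z :=
    ((ContinuousLinearMap.restrictScalarsL ℂ (Fin n → ℂ) (Fin m → ℂ) ℝ ℝ).hasFDerivAt).comp z hA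
  have ha := hc.clm_apply hX.hasFDerivAt
  have hΨ : HasFDerivAt (𝕜 := ℝ)
      (fun w => ∑ j, conj (G w j) * ((fderiv ℂ G w).restrictScalars ℝ) (X w) j) _ z :=
    HasFDerivAt.fun_sum fun j _ =>
      ((Complex.conjCLE.toContinuousLinearMap.hasFDerivAt.comp z (hasFDerivAt_pi'.1 hGr j)).mul
        (hasFDerivAt_pi'.1 ha j))
  have hzero : ∀ u ∈ tangent M z, _ = (0 : ℂ) := fun u hu =>
    fderiv_tangent (M := M) hz hΨ.differentiableAt
      (by filter_upwards [hM, hXt] with w hw1 hw2 using hw1 _ hw2) hu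
  rw [hΨ.fderiv] at hzero
  have hvT : v ∈ ctangent M z := hXt.self_of_nhdsWithin hz
  have e1 := hzero v hvT.1
  have e2 := hzero (Complex.I • v) hvT.2
  simp [← hv] at e1 e2
  have hbr : VectorField.lieBracket ℝ X (fun w => Complex.I • X w) z =
      Complex.I • X' v - X' (Complex.I • v) := by
    have h1 : HasFDerivAt (𝕜 := ℝ) (fun w => Complex.I • X w) (Complex.I • X') z :=
      hX.hasFDerivAt.const_smul Complex.I
    rw [VectorField.lieBracket, h1.fderiv]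
    rfl
  rw [hbr]
  have e3 : ∀ j, conj (G z j) * D (Complex.I • X' v - X' (Complex.I • v)) j =
      conj (G z j) * (Complex.I * D (X' v) j - D (X' (Complex.I • v)) j) := by
    intro j
    rw [map_sub, map_smul]
    rfl
  have e4 : ∀ j, ((‖D v j‖ ^ 2 : ℝ) : ℂ) = D v j * conj (D v j) := by
    intro j
    rw [Complex.mul_conj, Complex.normSq_eq_norm_sq]
  have e5 := congrArg (fun x => Complex.I * x) e1
  have e6 : ∑ x, (Complex.I * (conj (G z x) * D (X' v) x + conj (G z x) * (D2 v) v x +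
      D v x * conj (D v x)) - (conj (G z x) * D (X' (Complex.I • v)) x +
          conj (G z x) * (Complex.I * (D2 v) v x) +
        -(D v x * (Complex.I * conj (D v x))))) = 0 := by
    rw [Finset.sum_sub_distrib, ← Finset.mul_sum]
    rw [← hD, ← hX'] at e1 e2
    rw [e1, e2]
    simp
  simp only [e3]
  rw [Finset.mul_sum, ← sub_eq_zero, ← Finset.sum_sub_distrib]
  rw [← e6]
  refine Finset.sum_congr rfl fun j _ => ?_
  have := e4 j
  push_cast at this
  rw [this]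
  ring

end Pool.Agent.Lib.MP_2184e2_an
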