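import Pool.Agent.Lib.MP_2184e2_an.Torus

/-!
The CR mapping `f : M₁ → S⁷` has no holomorphic extension to a neighbourhood of `M₁`.
-/

set_option autoImplicit false

namespace Pool.Agent.Lib.MP_2184e2_an

open Set Filter Topology MeasureTheory
open scoped ContDiff NNReal ComplexConjugate

lemma analyticAt_Phi (p : Fin 2 → ℂ) : AnalyticAt ℂ Phi p := by
  unfold Phi
  rw [analyticAt_pi_iff]
  intro i
  fin_cases i
  · exact (analyticAt_coord 0 p).pow 2
  · exact (analyticAt_coord 0 p).pow 3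
  · exact analyticAt_coord 1 p
  · exact (analyticAt_coord 0 p).mul (analyticAt_coord 1 p)

theorem not_extends : ¬ ExtendsHolomorphically M1 (Sph 4) fmap := by
  rintro ⟨U, hU, hMU, F, hF, hFf⟩
  -- first component
  have hF0 : AnalyticOnNhd ℂ (fun w => F w 0) U := fun w hw => by
    have := analyticAt_pi_iff.1 (hF w hw) 0
    exact this
  set F0 : (Fin 4 → ℂ) → ℂ := fun w => F w 0 with hF0def
  have hval : ∀ p ∈ Sph 2, F0 (Phi p) = p 0 := by
    intro p hp
    have h1 := hFf ⟨Phi p, mem_M1 hp⟩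
    rw [fmap_apply hp] at h1
    exact congrFun h1 0
  set e3 : Fin 4 → ℂ := ![0, 0, 0, 1] with he3
  -- the function `B(s,t) = t · ∂₄F₀(Φ(s,t))`
  set B : (Fin 2 → ℂ) → ℂ := fun p => fderiv ℂ F0 (Phi p) e3 * p 1 with hBdef
  have hB : AnalyticOnNhd ℂ B (Sph 2) := by
    intro p hp
    have h1 : AnalyticAt ℂ (fderiv ℂ F0) (Phi p) := (hF0 _ (hMU (mem_M1 hp))).fderiv
    have h2 : AnalyticAt ℂ (fun p => fderiv ℂ F0 (Phi p)) p := h1.comp (analyticAt_Phi p)
    have h3 : AnalyticAt ℂ (fun p => fderiv ℂ F0 (Phi p) e3) p :=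
      ((ContinuousLinearMap.apply ℂ ℂ e3).analyticAt _).comp h2
    exact h3.mul (analyticAt_coord 1 p)
  have h := torus hB
  -- values at the end points
  have hright : ∀ y, B (gam (Real.pi / 2) y) = 0 := by
    intro y
    have : gam (Real.pi / 2) y 1 = 0 := by
      show (Real.cos (Real.pi / 2) : ℂ) * Complex.exp (y.2 * Complex.I) = 0
      rw [Real.cos_pi_div_two]; simp
    simp only [hBdef, this, mul_zero]
  have hleft : ∀ y, B (gam 0 y) = 1 := by
    intro y
    set p := gam 0 y with hpdef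
    have hp : p ∈ Sph 2 := gam_mem 0 y
    have hp0 : p 0 = 0 := by
      show (Real.sin 0 : ℂ) * Complex.exp (y.1 * Complex.I) = 0
      rw [Real.sin_zero]; simp
    -- a curve in the sphere through `p` with velocity `(1,0)`
    have hre : (herm p ![1, 0]).re = 0 := by
      unfold herm
      rw [Fin.sum_univ_two]
      simp [hp0]
    obtain ⟨γ, h1, h2, h3⟩ := sphere_curve hp hre
    have h4 := hasDerivAt_Phi h1
    rw [h2] at h4
    have hd : HasFDerivAt (𝕜 := ℝ) F0 ((fderiv ℂ F0 (Phi p)).restrictScalars ℝ) (Phi (γ 0)) := by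
      rw [h2]
      exact (hF0 _ (hMU (mem_M1 hp))).differentiableAt.hasFDerivAt.restrictScalars ℝ
    have h5 := hd.comp_hasDerivAt 0 h4
    have h6 : HasDerivAt (fun θ => γ θ 0) 1 0 := (hasDerivAt_pi.1 h1) 0
    have h7 : (F0 ∘ fun x => Phi (γ x)) = fun θ => γ θ 0 := by
      funext θ
      exact hval _ (h3 θ)
    rw [h7] at h5
    have h8 := h5.unique h6
    have h9 : DPhi p ![1, 0] = (p 1) • e3 := by
      ext k
      fin_cases k <;> simp [DPhi, he3, hp0]
    have h10 : fderiv ℂ F0 (Phi p) (DPhi p ![1, 0]) = 1 := h8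
    rw [h9, map_smul, smul_eq_mul] at h10
    show fderiv ℂ F0 (Phi p) e3 * p 1 = 1
    rw [mul_comm]; exact h10
  simp only [hright, hleft] at h
  rw [integral_const, integral_zero] at h
  have hvol : (volume.restrict KK).real univ = (2 * Real.pi) * (2 * Real.pi) := by
    unfold KK
    rw [Measure.volume_eq_prod, measureReal_restrict_apply_univ, measureReal_prod_prod]
    simp [Real.volume_real_Icc, Real.pi_pos.le]
  rw [hvol] at h
  have hpi := Real.pi_pos
  have : (2 * Real.pi) * (2 * Real.pi) ≠ 0 := by positivity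
  simp at h

end Pool.Agent.Lib.MP_2184e2_an
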