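import Pool.Agent.Lib.MP_2184e2_an.CondL

/-!
The unit sphere of `ℂⁿ`.
-/

set_option autoImplicit false

namespace Pool.Agent.Lib.MP_2184e2_an

open Set Filter Topology
open scoped ContDiff NNReal ComplexConjugate

variable {n : ℕ}

/-- The unit sphere `S^{2n-1}` of `ℂⁿ`. -/
def Sph (n : ℕ) : Set (Fin n → ℂ) := {z | ∑ i, ‖z i‖ ^ 2 = 1}

/-- `∑ conj(z_i) v_i`. -/
noncomputable def herm (z v : Fin n → ℂ) : ℂ := ∑ i, conj (z i) * v i

lemma norm_sq_re_im (a : ℂ) : ‖a‖ ^ 2 = a.re ^ 2 + a.im ^ 2 := by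
  rw [← Complex.normSq_eq_norm_sq, Complex.normSq_apply]; ring

lemma herm_self (z : Fin n → ℂ) : herm z z = ((∑ i, ‖z i‖ ^ 2 : ℝ) : ℂ) := by
  unfold herm
  push_cast
  refine Finset.sum_congr rfl fun i _ => ?_
  rw [mul_comm, Complex.mul_conj, Complex.normSq_eq_norm_sq]
  push_cast
  rfl

lemma herm_add (z v w : Fin n → ℂ) : herm z (v + w) = herm z v + herm z w := by
  unfold herm
  rw [← Finset.sum_add_distrib]
  exact Finset.sum_congr rfl fun i _ => by rw [Pi.add_apply]; ring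

lemma herm_smul (c : ℂ) (z v : Fin n → ℂ) : herm z (c • v) = c * herm z v := by
  unfold herm
  rw [Finset.mul_sum]
  exact Finset.sum_congr rfl fun i _ => by rw [Pi.smul_apply, smul_eq_mul]; ring

lemma herm_sub (z v w : Fin n → ℂ) : herm z (v - w) = herm z v - herm z w := by
  unfold herm
  rw [← Finset.sum_sub_distrib]
  exact Finset.sum_congr rfl fun i _ => by rw [Pi.sub_apply]; ring

/-- A curve in the sphere with prescribed velocity. -/
lemma sphere_curve {x y : Fin n → ℂ} (hx : x ∈ Sph n) (hxy : (herm x y).re = 0) :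
    ∃ γ : ℝ → Fin n → ℂ, HasDerivAt γ y 0 ∧ γ 0 = x ∧ ∀ θ, γ θ ∈ Sph n := by
  set c : ℝ := ∑ i, ‖y i‖ ^ 2 with hc
  have hc0 : 0 ≤ c := Finset.sum_nonneg fun i _ => by positivity
  refine ⟨fun θ => ((Real.sqrt (1 + θ ^ 2 * c))⁻¹ : ℝ) • (x + θ • y), ?_, ?_, ?_⟩
  · have h1 : HasDerivAt (fun θ : ℝ => 1 + θ ^ 2 * c) 0 0 := by
      have := ((hasDerivAt_id (0 : ℝ)).pow 2).mul_const c |>.const_add 1
      simpa using this
    have h2 : HasDerivAt (fun θ : ℝ => Real.sqrt (1 + θ ^ 2 * c)) (0 / (2 * Real.sqrt (1 + 0 ^ 2 * c))) 0 :=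
      h1.sqrt (by norm_num)
    have h3 : HasDerivAt (fun θ : ℝ => (Real.sqrt (1 + θ ^ 2 * c))⁻¹) 0 0 := by
      have := h2.fun_inv (by norm_num)
      refine this.congr_deriv ?_
      simp
    have h4 : HasDerivAt (fun θ : ℝ => x + θ • y) y 0 := by
      have := ((hasDerivAt_id (0 : ℝ)).smul_const y).const_add x
      simpa using this
    have h5 := h3.smul h4
    refine h5.congr_deriv ?_
    simp
  · simp
  · intro θ
    have hpos : 0 < 1 + θ ^ 2 * c := by positivity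
    have e1 : ∀ i, ‖(((Real.sqrt (1 + θ ^ 2 * c))⁻¹ : ℝ) • (x + θ • y)) i‖ ^ 2 =
        (1 + θ ^ 2 * c)⁻¹ * ‖x i + θ * y i‖ ^ 2 := by
      intro i
      rw [Pi.smul_apply, norm_smul, mul_pow, norm_inv, Real.norm_of_nonneg (Real.sqrt_nonneg _),
        inv_pow, Real.sq_sqrt hpos.le]
      simp
    have e2 : ∑ i, ‖x i + θ * y i‖ ^ 2 = 1 + θ ^ 2 * c := by
      have h1 : ∀ i, ‖x i + θ * y i‖ ^ 2 =
          ‖x i‖ ^ 2 + 2 * θ * (conj (x i) * y i).re + θ ^ 2 * ‖y i‖ ^ 2 := by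
        intro i
        simp only [norm_sq_re_im]
        simp
        ring
      simp only [h1, Finset.sum_add_distrib, ← Finset.mul_sum]
      have h2 : ∑ i, (conj (x i) * y i).re = 0 := by
        rw [← Complex.re_sum]; exact hxy
      have h3 : ∑ i, ‖x i‖ ^ 2 = 1 := hx
      rw [h2, h3]
      ring
    show ∑ i, _ = (1 : ℝ)
    simp only [e1]
    rw [← Finset.mul_sum, e2, inv_mul_cancel₀ hpos.ne']

/-- The defining function of the sphere. -/
noncomputable def qf (z : Fin n → ℂ) : ℝ := ∑ i, ((z i).re ^ 2 + (z i).im ^ 2) - 1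

lemma qf_eq_zero {z : Fin n → ℂ} : qf z = 0 ↔ z ∈ Sph n := by
  unfold qf Sph
  simp only [Set.mem_ofPred_eq, norm_sq_re_im]
  constructor <;> intro h <;> linarith

lemma hasFDerivAt_qf (z : Fin n → ℂ) : ∃ L : (Fin n → ℂ) →L[ℝ] ℝ, HasFDerivAt qf L z ∧
    ∀ v, L v = 2 * (herm z v).re := by
  have hre : ∀ i : Fin n, HasFDerivAt (fun z : Fin n → ℂ => (z i).re)
      (Complex.reCLM.comp (ContinuousLinearMap.proj i : (Fin n → ℂ) →L[ℝ] ℂ)) z := fun i =>
    (Complex.reCLM.comp (ContinuousLinearMap.proj i : (Fin n → ℂ) →L[ℝ] ℂ)).hasFDerivAt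
  have him : ∀ i : Fin n, HasFDerivAt (fun z : Fin n → ℂ => (z i).im)
      (Complex.imCLM.comp (ContinuousLinearMap.proj i : (Fin n → ℂ) →L[ℝ] ℂ)) z := fun i =>
    (Complex.imCLM.comp (ContinuousLinearMap.proj i : (Fin n → ℂ) →L[ℝ] ℂ)).hasFDerivAt
  refine ⟨_, (HasFDerivAt.fun_sum fun i (_ : i ∈ Finset.univ) =>
    ((hre i).pow 2).add ((him i).pow 2)).sub_const 1, ?_⟩
  intro v
  unfold herm
  rw [Complex.re_sum, Finset.mul_sum]
  simp
  refine Finset.sum_congr rfl fun i _ => ?_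
  ring

lemma analyticAt_qf (z : Fin n → ℂ) : AnalyticAt ℝ qf z := by
  have hre : ∀ i : Fin n, AnalyticAt ℝ (fun z : Fin n → ℂ => (z i).re) z := fun i =>
    (Complex.reCLM.comp (ContinuousLinearMap.proj i : (Fin n → ℂ) →L[ℝ] ℂ)).analyticAt z
  have him : ∀ i : Fin n, AnalyticAt ℝ (fun z : Fin n → ℂ => (z i).im) z := fun i =>
    (Complex.imCLM.comp (ContinuousLinearMap.proj i : (Fin n → ℂ) →L[ℝ] ℂ)).analyticAt z
  unfold qf
  refine AnalyticAt.sub ?_ analyticAt_const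
  refine Finset.analyticAt_fun_sum _ fun i _ => ?_
  exact ((hre i).pow 2).add ((him i).pow 2)

lemma mem_tangent_sph {z v : Fin n → ℂ} (hz : z ∈ Sph n) :
    v ∈ tangent (Sph n) z ↔ (herm z v).re = 0 := by
  constructor
  · intro hv
    obtain ⟨L, hL, hLv⟩ := hasFDerivAt_qf z
    have := fderiv_tangent (ψ := qf) hz hL.differentiableAt
      (by filter_upwards [self_mem_nhdsWithin] with w hw using qf_eq_zero.2 hw) hv
    rw [hL.fderiv, hLv] at this
    linarith
  · intro hv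
    obtain ⟨γ, h1, h2, h3⟩ := sphere_curve hz hv
    exact mem_tangent_of_curve h1 h2 h3

lemma mem_ctangent_sph {z v : Fin n → ℂ} (hz : z ∈ Sph n) :
    v ∈ ctangent (Sph n) z ↔ herm z v = 0 := by
  have h : v ∈ ctangent (Sph n) z ↔ v ∈ tangent (Sph n) z ∧ Complex.I • v ∈ tangent (Sph n) z :=
    Iff.rfl
  rw [h, mem_tangent_sph hz, mem_tangent_sph hz, herm_smul]
  constructor
  · rintro ⟨h1, h2⟩
    apply Complex.ext h1
    simpa using h2
  · intro h
    rw [h]; simp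

lemma analytic_sph : IsAnalyticSubmanifold 1 (Sph n) := by
  intro z hz
  obtain ⟨L, hL, hLv⟩ := hasFDerivAt_qf z
  have hd : HasFDerivAt (fun w : Fin n → ℂ => (fun _ : Fin 1 => qf w))
      (ContinuousLinearMap.pi fun _ : Fin 1 => L) z := hasFDerivAt_pi.2 fun _ => hL
  refine ⟨fun w _ => qf w, ?_, ?_, ?_⟩
  · exact analyticAt_pi_iff.2 fun _ => analyticAt_qf z
  · intro y
    refine ⟨((y 0 / 2 : ℝ) : ℂ) • z, ?_⟩
    rw [hd.fderiv]
    ext k
    rw [ContinuousLinearMap.pi_apply, hLv, herm_smul, herm_self,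
      show (∑ i, ‖z i‖ ^ 2 : ℝ) = 1 from hz, Subsingleton.elim k 0]
    simp
    ring
  · refine Eventually.of_forall fun w => ?_
    rw [← qf_eq_zero]
    constructor
    · intro h; funext _; exact h
    · intro h; exact congrFun h 0

lemma finrank_ctangent_sph {z : Fin (n + 1) → ℂ} (hz : z ∈ Sph (n + 1)) :
    Module.finrank ℂ (ctangent (Sph (n + 1)) z) = n := by
  let L : (Fin (n + 1) → ℂ) →ₗ[ℂ] ℂ :=
    { toFun := fun v => herm z v
      map_add' := fun v w => herm_add z v w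
      map_smul' := fun c v => herm_smul c z v }
  have h1 : ctangent (Sph (n + 1)) z = LinearMap.ker L := by
    ext v
    rw [mem_ctangent_sph hz, LinearMap.mem_ker]
    rfl
  have h2 := L.finrank_range_add_finrank_ker
  have h3 : LinearMap.range L = ⊤ := by
    rw [LinearMap.range_eq_top]
    intro c
    refine ⟨c • z, ?_⟩
    show herm z (c • z) = c
    rw [herm_smul, herm_self, show (∑ i, ‖z i‖ ^ 2 : ℝ) = 1 from hz]
    simp
  rw [h3, finrank_top] at h2
  simp at h2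
  rw [h1]
  omega

/-- A smooth section of the complex tangent bundle of the sphere. -/
lemma section_sph {z v : Fin n → ℂ} (hz : z ∈ Sph n) (hv : v ∈ ctangent (Sph n) z) :
    ∃ X : (Fin n → ℂ) → Fin n → ℂ, ContDiffAt ℝ ∞ X z ∧
      (∀ᶠ w in 𝓝[Sph n] z, X w ∈ ctangent (Sph n) w) ∧ X z = v := by
  refine ⟨fun w => v - herm w v • w, ?_, ?_, ?_⟩
  · apply ContDiff.contDiffAt
    have h : ContDiff ℝ ∞ fun w : Fin n → ℂ => herm w v := by
      unfold herm
      refine ContDiff.sum fun i _ => ?_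
      exact (Complex.conjCLE.contDiff.comp (contDiff_apply ℝ ℂ i)).mul contDiff_const
    exact contDiff_const.sub (h.smul contDiff_id)
  · filter_upwards [self_mem_nhdsWithin] with w hw
    rw [mem_ctangent_sph hw, herm_sub, herm_smul, herm_self,
      show (∑ i, ‖w i‖ ^ 2 : ℝ) = 1 from hw]
    simp
  · rw [mem_ctangent_sph hz] at hv
    simp [hv]

lemma conditionL_sph : ConditionL (Sph (n + 2)) := by
  intro z hz
  have hid : ∀ w u : Fin (n + 2) → ℂ, fderiv ℂ (id : (Fin (n + 2) → ℂ) → Fin (n + 2) → ℂ) w u = u := by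
    intro w u; rw [fderiv_id]; rfl
  have hρ : AnalyticAt ℝ (qf : (Fin (n + 2) → ℂ) → ℝ) z := analyticAt_qf z
  refine conditionL_at (G := id) (ρ := qf) hz analyticAt_id ?_ ?_ ?_ ?_ ?_ hρ ?_ ?_
  · filter_upwards [self_mem_nhdsWithin] with w hw u hu
    simp only [hid]
    exact (mem_ctangent_sph hw).1 hu
  · intro u hu h
    rw [mem_ctangent_sph hz]
    rw [ell_apply] at h
    simp only [hid] at h
    apply Complex.ext
    · exact (mem_tangent_sph hz).1 hu
    · simpa [herm] using h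
  · intro v _ h
    rwa [hid] at h
  · -- a nonzero complex tangent vector
    have h1 := finrank_ctangent_sph (n := n + 1) hz
    have h2 : 0 < Module.finrank ℂ (ctangent (Sph (n + 2)) z) := by
      have h3 : Module.finrank ℂ (ctangent (Sph (n + 2)) z) = n + 1 := h1
      omega
    have := Module.finrank_pos_iff.1 h2
    obtain ⟨v, hv⟩ := exists_ne (0 : ctangent (Sph (n + 2)) z)
    exact ⟨v, v.2, by simpa using hv⟩
  · intro v hv
    exact section_sph hz hv
  · exact Eventually.of_forall fun w hw => qf_eq_zero.2 hw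
  · intro u hu
    obtain ⟨L, hL, hLv⟩ := hasFDerivAt_qf z
    rw [hL.fderiv, hLv] at hu
    rw [mem_tangent_sph hz]
    linarith

end Pool.Agent.Lib.MP_2184e2_an
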