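import Pool.Agent.Lib.MP_2184e2_an.ExampleCR

/-!
Integrals of holomorphic functions over the tori `|s| = sin x`, `|t| = cos x` in `S³`.
-/

set_option autoImplicit false

namespace Pool.Agent.Lib.MP_2184e2_an

open Set Filter Topology MeasureTheory
open scoped ContDiff NNReal ComplexConjugate

/-- The torus `(sin x e^{iθ}, cos x e^{iφ})`. -/
noncomputable def gam (x : ℝ) (y : ℝ × ℝ) : Fin 2 → ℂ :=
  ![(Real.sin x : ℂ) * Complex.exp (y.1 * Complex.I), (Real.cos x : ℂ) * Complex.exp (y.2 * Complex.I)]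

/-- The derivative of `gam` in `x`. -/
noncomputable def gamx (x : ℝ) (y : ℝ × ℝ) : Fin 2 → ℂ :=
  ![(Real.cos x : ℂ) * Complex.exp (y.1 * Complex.I), -(Real.sin x : ℂ) * Complex.exp (y.2 * Complex.I)]

/-- The derivative of `gam` in `θ`. -/
noncomputable def gam1 (x : ℝ) (y : ℝ × ℝ) : Fin 2 → ℂ :=
  ![(Real.sin x : ℂ) * (Complex.exp (y.1 * Complex.I) * Complex.I), 0]

/-- The derivative of `gam` in `φ`. -/
noncomputable def gam2 (x : ℝ) (y : ℝ × ℝ) : Fin 2 → ℂ :=
  ![0, (Real.cos x : ℂ) * (Complex.exp (y.2 * Complex.I) * Complex.I)]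

lemma gam_mem (x : ℝ) (y : ℝ × ℝ) : gam x y ∈ Sph 2 := by
  show ∑ i, ‖gam x y i‖ ^ 2 = 1
  rw [Fin.sum_univ_two]
  have h1 : ‖gam x y 0‖ = |Real.sin x| := by
    show ‖(Real.sin x : ℂ) * Complex.exp (y.1 * Complex.I)‖ = _
    rw [norm_mul, Complex.norm_exp_ofReal_mul_I, mul_one, Complex.norm_real, Real.norm_eq_abs]
  have h2 : ‖gam x y 1‖ = |Real.cos x| := by
    show ‖(Real.cos x : ℂ) * Complex.exp (y.2 * Complex.I)‖ = _
    rw [norm_mul, Complex.norm_exp_ofReal_mul_I, mul_one, Complex.norm_real, Real.norm_eq_abs]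
  rw [h1, h2, sq_abs, sq_abs, Real.sin_sq_add_cos_sq]

lemma continuous_gam : Continuous fun q : ℝ × (ℝ × ℝ) => gam q.1 q.2 := by
  refine continuous_pi fun k => ?_
  fin_cases k
  · show Continuous fun q : ℝ × (ℝ × ℝ) => (Real.sin q.1 : ℂ) * Complex.exp (q.2.1 * Complex.I)
    fun_prop
  · show Continuous fun q : ℝ × (ℝ × ℝ) => (Real.cos q.1 : ℂ) * Complex.exp (q.2.2 * Complex.I)
    fun_prop

lemma continuous_gamx : Continuous fun q : ℝ × (ℝ × ℝ) => gamx q.1 q.2 := by
  refine continuous_pi fun k => ?_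
  fin_cases k
  · show Continuous fun q : ℝ × (ℝ × ℝ) => (Real.cos q.1 : ℂ) * Complex.exp (q.2.1 * Complex.I)
    fun_prop
  · show Continuous fun q : ℝ × (ℝ × ℝ) => -(Real.sin q.1 : ℂ) * Complex.exp (q.2.2 * Complex.I)
    fun_prop

lemma continuous_gam1 (x : ℝ) : Continuous fun y : ℝ × ℝ => gam1 x y := by
  refine continuous_pi fun k => ?_
  fin_cases k
  · show Continuous fun y : ℝ × ℝ => (Real.sin x : ℂ) * (Complex.exp (y.1 * Complex.I) * Complex.I)
    fun_prop
  · exact continuous_const

lemma continuous_gam2 (x : ℝ) : Continuous fun y : ℝ × ℝ => gam2 x y := by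
  refine continuous_pi fun k => ?_
  fin_cases k
  · exact continuous_const
  · show Continuous fun y : ℝ × ℝ => (Real.cos x : ℂ) * (Complex.exp (y.2 * Complex.I) * Complex.I)
    fun_prop

lemma hasDerivAt_expI (θ : ℝ) :
    HasDerivAt (fun θ : ℝ => Complex.exp (θ * Complex.I)) (Complex.exp (θ * Complex.I) * Complex.I) θ := by
  have h1 : HasDerivAt (fun θ : ℝ => (θ : ℂ) * Complex.I) (1 * Complex.I) θ :=
    (Complex.ofRealCLM.hasDerivAt (x := θ)).mul_const Complex.I
  refine h1.cexp.congr_deriv ?_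
  ring

lemma hasDerivAt_gamx (x : ℝ) (y : ℝ × ℝ) : HasDerivAt (fun x => gam x y) (gamx x y) x := by
  rw [hasDerivAt_pi]
  intro k
  fin_cases k
  · exact (Real.hasDerivAt_sin x).ofReal_comp.mul_const _
  · refine ((Real.hasDerivAt_cos x).ofReal_comp.mul_const
      (Complex.exp (y.2 * Complex.I))).congr_deriv ?_
    show _ = -(Real.sin x : ℂ) * Complex.exp (y.2 * Complex.I)
    push_cast
    ring

lemma hasDerivAt_gam1 (x θ φ : ℝ) : HasDerivAt (fun θ => gam x (θ, φ)) (gam1 x (θ, φ)) θ := by
  rw [hasDerivAt_pi]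
  intro k
  fin_cases k
  · exact (hasDerivAt_expI θ).const_mul (Real.sin x : ℂ)
  · exact hasDerivAt_const θ ((Real.cos x : ℂ) * Complex.exp (φ * Complex.I))

lemma hasDerivAt_gam2 (x θ φ : ℝ) : HasDerivAt (fun φ => gam x (θ, φ)) (gam2 x (θ, φ)) φ := by
  rw [hasDerivAt_pi]
  intro k
  fin_cases k
  · exact hasDerivAt_const φ ((Real.sin x : ℂ) * Complex.exp (θ * Complex.I))
  · exact (hasDerivAt_expI φ).const_mul (Real.cos x : ℂ)

/-- The square of parameters. -/
def KK : Set (ℝ × ℝ) := Icc 0 (2 * Real.pi) ×ˢ Icc 0 (2 * Real.pi)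

lemma isCompact_KK : IsCompact KK := isCompact_Icc.prod isCompact_Icc

lemma comp_deriv {B : (Fin 2 → ℂ) → ℂ} (hB : AnalyticOnNhd ℂ B (Sph 2)) {γ : ℝ → Fin 2 → ℂ}
    {v : Fin 2 → ℂ} {t : ℝ} (hγ : HasDerivAt γ v t) (hm : γ t ∈ Sph 2) :
    HasDerivAt (fun t => B (γ t)) (fderiv ℂ B (γ t) v) t := by
  have h1 : HasFDerivAt (𝕜 := ℝ) B ((fderiv ℂ B (γ t)).restrictScalars ℝ) (γ t) :=
    (hB _ hm).differentiableAt.hasFDerivAt.restrictScalars ℝ
  exact h1.comp_hasDerivAt t hγ

/-- The torus integral is independent of the torus. -/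
lemma torus {B : (Fin 2 → ℂ) → ℂ} (hB : AnalyticOnNhd ℂ B (Sph 2)) :
    ∫ y in KK, B (gam 0 y) = ∫ y in KK, B (gam (Real.pi / 2) y) := by
  have hc : Continuous fun q : ℝ × (ℝ × ℝ) => B (gam q.1 q.2) :=
    hB.continuousOn.comp_continuous continuous_gam fun q => gam_mem _ _
  have hD : Continuous fun q : ℝ × (ℝ × ℝ) => fderiv ℂ B (gam q.1 q.2) :=
    hB.fderiv.continuousOn.comp_continuous continuous_gam fun q => gam_mem _ _
  have hcx : Continuous fun q : ℝ × (ℝ × ℝ) => fderiv ℂ B (gam q.1 q.2) (gamx q.1 q.2) :=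
    hD.clm_apply continuous_gamx
  -- differentiation under the integral sign
  have hder : ∀ x, HasDerivAt (fun x => ∫ y in KK, B (gam x y))
      (∫ y in KK, fderiv ℂ B (gam x y) (gamx x y)) x := by
    intro x
    have hK : IsCompact (Icc (x - 1) (x + 1) ×ˢ KK) := isCompact_Icc.prod isCompact_KK
    obtain ⟨C, hC⟩ := hK.exists_bound_of_continuousOn hcx.continuousOn
    refine (hasDerivAt_integral_of_dominated_loc_of_deriv_le (μ := volume.restrict KK)
      (F := fun x y => B (gam x y)) (F' := fun x y => fderiv ℂ B (gam x y) (gamx x y))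
      (bound := fun _ => C) (s := Icc (x - 1) (x + 1)) (Icc_mem_nhds (by linarith) (by linarith))
      ?_ ?_ ?_ ?_ ?_ ?_).2
    · refine Eventually.of_forall fun x' => ?_
      exact (hc.comp (Continuous.prodMk_right x')).aestronglyMeasurable
    · exact ((hc.comp (Continuous.prodMk_right x)).continuousOn.integrableOn_compact isCompact_KK)
    · exact (hcx.comp (Continuous.prodMk_right x)).aestronglyMeasurable
    · rw [ae_restrict_iff' isCompact_KK.measurableSet]
      refine Eventually.of_forall fun y hy x' hx' => ?_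
      exact hC (x', y) ⟨hx', hy⟩
    · exact integrableOn_const (isCompact_KK.measure_lt_top.ne)
    · refine Eventually.of_forall fun y x' _ => ?_
      exact comp_deriv hB (hasDerivAt_gamx x' y) (gam_mem _ _)
  -- the two angular integrals vanish
  have h2pi : (0 : ℝ) ≤ 2 * Real.pi := by positivity
  have hper : ∀ x θ, gam x (θ, 2 * Real.pi) = gam x (θ, 0) ∧
      ∀ φ, gam x (2 * Real.pi, φ) = gam x (0, φ) := by
    intro x θ
    unfold gam
    simp [Complex.exp_two_pi_mul_I]
  have hc1 : ∀ x, Continuous fun y : ℝ × ℝ => fderiv ℂ B (gam x y) (gam1 x y) := fun x =>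
    (hD.comp (Continuous.prodMk_right x)).clm_apply (continuous_gam1 x)
  have hc2 : ∀ x, Continuous fun y : ℝ × ℝ => fderiv ℂ B (gam x y) (gam2 x y) := fun x =>
    (hD.comp (Continuous.prodMk_right x)).clm_apply (continuous_gam2 x)
  have h2 : ∀ x, ∫ y in KK, fderiv ℂ B (gam x y) (gam2 x y) = 0 := by
    intro x
    unfold KK
    rw [Measure.volume_eq_prod, setIntegral_prod _
      (((hc2 x).continuousOn.integrableOn_compact isCompact_KK))]
    have : ∀ θ : ℝ, ∫ φ in Icc 0 (2 * Real.pi), fderiv ℂ B (gam x (θ, φ)) (gam2 x (θ, φ)) = 0 := by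
      intro θ
      rw [integral_Icc_eq_integral_Ioc, ← intervalIntegral.integral_of_le h2pi,
        intervalIntegral.integral_eq_sub_of_hasDerivAt
          (f := fun φ => B (gam x (θ, φ))) (fun φ _ => comp_deriv hB (hasDerivAt_gam2 x θ φ)
            (gam_mem _ _)) ?_]
      · show B (gam x (θ, 2 * Real.pi)) - B (gam x (θ, 0)) = 0
        rw [(hper x θ).1, sub_self]
      · exact ((hc2 x).comp (Continuous.prodMk_right θ)).intervalIntegrable _ _
    simp [this]
  have h1 : ∀ x, ∫ y in KK, fderiv ℂ B (gam x y) (gam1 x y) = 0 := by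
    intro x
    unfold KK
    rw [Measure.volume_eq_prod, ← setIntegral_prod_swap, setIntegral_prod _ ?_]
    · have : ∀ φ : ℝ, ∫ θ in Icc 0 (2 * Real.pi),
          fderiv ℂ B (gam x ((φ, θ) : ℝ × ℝ).swap) (gam1 x ((φ, θ) : ℝ × ℝ).swap) = 0 := by
        intro φ
        simp only [Prod.swap_prod_mk]
        rw [integral_Icc_eq_integral_Ioc, ← intervalIntegral.integral_of_le h2pi,
          intervalIntegral.integral_eq_sub_of_hasDerivAt
            (f := fun θ => B (gam x (θ, φ))) (fun θ _ => comp_deriv hB (hasDerivAt_gam1 x θ φ)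
              (gam_mem _ _)) ?_]
        · show B (gam x (2 * Real.pi, φ)) - B (gam x (0, φ)) = 0
          rw [(hper x 0).2 φ, sub_self]
        · exact ((hc1 x).comp (Continuous.prodMk_left φ)).intervalIntegrable _ _
      simp only [this]
      simp
    · exact ((hc1 x).comp continuous_swap).continuousOn.integrableOn_compact isCompact_KK
  -- the radial derivative
  have hzero : ∀ x ∈ Ioo (0 : ℝ) (Real.pi / 2),
      ∫ y in KK, fderiv ℂ B (gam x y) (gamx x y) = 0 := by
    intro x hx
    have hs : (Real.sin x : ℂ) ≠ 0 := by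
      exact_mod_cast (Real.sin_pos_of_pos_of_lt_pi hx.1 (by linarith [hx.2, Real.pi_pos])).ne'
    have hcs : (Real.cos x : ℂ) ≠ 0 := by
      exact_mod_cast (Real.cos_pos_of_mem_Ioo ⟨by linarith [hx.1, Real.pi_pos], hx.2⟩).ne'
    have e : ∀ y, fderiv ℂ B (gam x y) (gamx x y) =
        (-Complex.I * (Real.cos x / Real.sin x)) * fderiv ℂ B (gam x y) (gam1 x y) +
        (Complex.I * (Real.sin x / Real.cos x)) * fderiv ℂ B (gam x y) (gam2 x y) := by
      intro y
      have e1 : gamx x y = (-Complex.I * (Real.cos x / Real.sin x)) • gam1 x y +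
          (Complex.I * (Real.sin x / Real.cos x)) • gam2 x y := by
        ext k
        fin_cases k
        · show (Real.cos x : ℂ) * Complex.exp (y.1 * Complex.I) =
            (-Complex.I * (Real.cos x / Real.sin x)) *
              ((Real.sin x : ℂ) * (Complex.exp (y.1 * Complex.I) * Complex.I)) +
            (Complex.I * (Real.sin x / Real.cos x)) * 0
          have : (Real.cos x / Real.sin x : ℂ) * Real.sin x = Real.cos x := by
            rw [div_mul_cancel₀ _ hs]
          linear_combination (Complex.I * Complex.exp (y.1 * Complex.I) * Complex.I) * this +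
            (Real.cos x : ℂ) * Complex.exp (y.1 * Complex.I) * (Complex.I_sq)
        · show -(Real.sin x : ℂ) * Complex.exp (y.2 * Complex.I) =
            (-Complex.I * (Real.cos x / Real.sin x)) * 0 +
            (Complex.I * (Real.sin x / Real.cos x)) *
              ((Real.cos x : ℂ) * (Complex.exp (y.2 * Complex.I) * Complex.I))
          have : (Real.sin x / Real.cos x : ℂ) * Real.cos x = Real.sin x := by
            rw [div_mul_cancel₀ _ hcs]
          linear_combination (-Complex.I * Complex.exp (y.2 * Complex.I) * Complex.I) * this -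
            (Real.sin x : ℂ) * Complex.exp (y.2 * Complex.I) * (Complex.I_sq)
      rw [e1, map_add, map_smul, map_smul]
      rfl
    simp only [e]
    rw [integral_add, integral_const_mul, integral_const_mul, h1, h2]
    · simp
    · exact (((hc1 x).continuousOn.integrableOn_compact isCompact_KK).const_mul _)
    · exact (((hc2 x).continuousOn.integrableOn_compact isCompact_KK).const_mul _)
  -- conclusion
  set J : ℝ → ℂ := fun x => ∫ y in KK, B (gam x y) with hJ
  have hJc : Continuous J := continuous_iff_continuousAt.2 fun x => (hder x).continuousAt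
  have hconst : ∀ x ∈ Ioo (0 : ℝ) (Real.pi / 2), J x = J (Real.pi / 4) := by
    intro x hx
    refine isOpen_Ioo.is_const_of_deriv_eq_zero isPreconnected_Ioo
      (fun x _ => (hder x).differentiableAt.differentiableWithinAt) ?_ hx
      ⟨by positivity, by linarith [Real.pi_pos]⟩
    intro x hx
    rw [(hder x).deriv]
    exact hzero x hx
  have hcl : ∀ x ∈ Icc (0 : ℝ) (Real.pi / 2), J x = J (Real.pi / 4) := by
    have h3 : IsClosed {x | J x = J (Real.pi / 4)} := isClosed_eq hJc continuous_const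
    have h4 : Icc (0 : ℝ) (Real.pi / 2) ⊆ {x | J x = J (Real.pi / 4)} := by
      rw [← closure_Ioo (by positivity)]
      exact closure_minimal hconst h3
    exact h4
  have e0 := hcl 0 ⟨le_refl _, by positivity⟩
  have e1 := hcl (Real.pi / 2) ⟨by positivity, le_refl _⟩
  rw [← e1] at e0
  exact e0

end Pool.Agent.Lib.MP_2184e2_an
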